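import Mathlib
import Pool.Agent.Lib.MP_1e3e9c_agR.ZDefs
import Pool.Agent.Lib.MP_1e3e9c_agR.B5

/-!
# MP_1e3e9c_ag, project M (curves of least degree): definitions

`val`, `crv`, `Un`, `Triv`, `IsFam`, `OpnAt` are those of project R (`RDefs.lean`, `ZDefs.lean`).
-/

set_option autoImplicit false

namespace Pool.Agent.Lib.MP_1e3e9c_agM

open Pool.Agent.Lib.MP_1e3e9c_agR

/-- The weights of the nonzero coordinates of `x` have no common divisor. -/
def Gc {L : Type} [Field L] {n : ℕ} (w : Fin (n + 1) → ℕ) (x : Fin (n + 1) → L) : Prop :=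
  ∀ d : ℕ, (∀ i, x i ≠ 0 → d ∣ w i) → d = 1

/-- The curve `p` is constant, with value `v`, expressed by binomials. -/
def Bi {L : Type} [Field L] {n : ℕ} (w : Fin (n + 1) → ℕ) (v : Fin (n + 1) → L)
    (p : Fin (n + 1) → Polynomial L) : Prop :=
  ∀ i j, p i ^ w j * Polynomial.C (v j ^ w i) = p j ^ w i * Polynomial.C (v i ^ w j)

/-- The point `v` over the field `L`. -/
def bc {k : Type} (L : Type) [Field k] [Field L] [Algebra k L] {n : ℕ} (v : Fin (n + 1) → k) :
    Fin (n + 1) → L :=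
  fun i => algebraMap k L (v i)

/-- `gcd` condition at all points of the zero set of `S` over `L`. -/
def Gp {k : Type} (L : Type) [Field k] [Field L] [Algebra k L] {n : ℕ} (w : Fin (n + 1) → ℕ)
    (S : Set (MvPolynomial (Fin (n + 1)) k)) : Prop :=
  ∀ x : Fin (n + 1) → L, x ≠ 0 → (∀ P ∈ S, MvPolynomial.aeval x P = 0) → Gc w x

/-- All curves of degree `< D` over `L` through `v` in the zero set of `S` are constant. -/
def Mn {k : Type} (L : Type) [Field k] [Field L] [Algebra k L] {n : ℕ} (w : Fin (n + 1) → ℕ)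
    (S : Set (MvPolynomial (Fin (n + 1)) k)) (D : ℕ) (v : Fin (n + 1) → k) : Prop :=
  ∀ D' < D, ∀ p : Fin (n + 1) → Polynomial L, (∀ i, (p i).natDegree ≤ w i * D') →
    (∀ i, (p i).coeff 0 = bc L v i) → (∀ P ∈ S, MvPolynomial.aeval p P = 0) → Bi w (bc L v) p

/-- The nonconstant curves of degree `D` through `v` in the zero set of `S`. -/
def Cn {k : Type} [Field k] {n : ℕ} (w : Fin (n + 1) → ℕ) (D : ℕ)
    (S : Set (MvPolynomial (Fin (n + 1)) k)) (v : Fin (n + 1) → k) : Set (Un w D → k) :=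
  {c | (∀ t, ∀ P ∈ S, MvPolynomial.eval (val (crv w D v c) t) P = 0) ∧
    ¬ ∀ t, ∃ a : k, ∀ i, (crv w D v c i).eval t = a ^ w i * v i}

end Pool.Agent.Lib.MP_1e3e9c_agM
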