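import Mathlib
import Pool.Agent.Lib.MP_1e3e9c_agM.MDefs

/-!
# MP_1e3e9c_ag, project M, leaf M1: multiples of a vector, points and polynomials

PROOF. (1) `orbit`. Let `I = {i | v i ≠ 0}`, `I ≠ ∅`. If `v i = 0`: take `j ∈ I`: `z i ^ w j * v j ^ w i = z j ^ w i * 0`, so `z i = 0` (`0 < w i`, so `0 ^ w i = 0`). Let `u i = z i / v i`
for `i ∈ I`: `u i ^ w j = u j ^ w i`. If one `u i = 0`, then all are `0` and `a = 0`. Otherwise all `u i ≠ 0`. The `gcd` of the `w i`, `i ∈ I`, is `1` (`Gc`, with `d = I.gcd w`), so there are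
integers `m i` with `∑_(i ∈ I) m i * w i = 1` (`Finset.gcd` is a combination: Bezout in `ℤ`: `Finset.exists_gcd_eq_sum...` / `Ideal.span`, `Int` PID, or
induction). `a = ∏ u i ^ (m i)` (zpow): `a ^ w j = ∏ (u i ^ w j) ^ m i = ∏ (u j ^ w i) ^ m i = u j ^ (∑ m i w i) = u j`. (2) `orbit_poly`: apply (1) over the field `RatFunc K` (or `FractionRing K[X]`) to the images of `p i`
and `C (v i)` (`Gc` is the same: `C (v i) ≠ 0` iff `v i ≠ 0`): `a ∈ K(X)` with `p i = a ^ w i * v i`. For `v i ≠ 0`: `a ^ w i = p i / v i ∈ K[X]`, so `a` is integral over `K[X]`, which is integrally closed (`IsIntegrallyClosed`): `a = h ∈ K[X]`. `h(0) ^ w i = 1` for all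
`i ∈ I`, so the order of `h(0)` divides all `w i`: `h(0) = 1`.
-/

set_option autoImplicit false

namespace Pool.Agent.Lib.MP_1e3e9c_agM

open Pool.Agent.Lib.MP_1e3e9c_agR

private theorem M1_bezout {ι : Type} (I : Finset ι) (w : ι → ℕ) (h : ∀ d : ℕ, (∀ i ∈ I, d ∣ w i) → d = 1) :
    ∃ m : ι → ℤ, ∑ i ∈ I, m i * (w i : ℤ) = 1 := by
  obtain ⟨f, hf⟩ := Finset.gcd_eq_sum_mul I (fun i => (w i : ℤ))
  set g : ℤ := I.gcd (fun i => (w i : ℤ)) with hg
  have h1 : g.natAbs = 1 := by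
    apply h
    intro i hi
    have h2 : g ∣ (w i : ℤ) := Finset.gcd_dvd hi
    exact Int.natAbs_dvd_natAbs.2 h2
  have h3 : g * g = 1 := by
    rw [← Int.natAbs_mul_self' g, h1]
    rfl
  refine ⟨fun i => g * f i, ?_⟩
  have h4 : ∑ i ∈ I, g * f i * (w i : ℤ) = g * ∑ i ∈ I, f i * (w i : ℤ) := by
    rw [Finset.mul_sum]
    exact Finset.sum_congr rfl fun i _ => mul_assoc _ _ _
  rw [h4]
  have h5 : ∑ i ∈ I, f i * (w i : ℤ) = g := by
    rw [hf]
    exact Finset.sum_congr rfl fun i _ => by ring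
  rw [h5, h3]

theorem orbit {K : Type} [Field K] {n : ℕ} {w : Fin (n + 1) → ℕ} (hw : ∀ i, 0 < w i)
    {v z : Fin (n + 1) → K} (hv : v ≠ 0) (hg : Gc w v)
    (h : ∀ i j, z i ^ w j * v j ^ w i = z j ^ w i * v i ^ w j) : ∃ a, ∀ i, z i = a ^ w i * v i := by
  classical
  set I : Finset (Fin (n + 1)) := Finset.univ.filter fun i => v i ≠ 0 with hI
  obtain ⟨j₀, hj₀⟩ := Function.ne_iff.1 hv
  have hj₀' : v j₀ ≠ 0 := hj₀
  have hz0 : ∀ i, v i = 0 → z i = 0 := by
    intro i hi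
    have h1 := h i j₀
    rw [hi, zero_pow (hw j₀).ne', mul_zero] at h1
    rcases mul_eq_zero.1 h1 with h2 | h2
    · exact (pow_eq_zero_iff (hw j₀).ne').1 h2
    · exact absurd ((pow_eq_zero_iff (hw i).ne').1 h2) hj₀'
  have hu : ∀ i j, v i ≠ 0 → v j ≠ 0 → (z i / v i) ^ w j = (z j / v j) ^ w i := by
    intro i j hi hj
    rw [div_pow, div_pow, div_eq_div_iff (pow_ne_zero _ hi) (pow_ne_zero _ hj)]
    exact h i j
  by_cases hz : ∃ i, v i ≠ 0 ∧ z i = 0
  · obtain ⟨i, hi, hzi⟩ := hz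
    refine ⟨0, fun j => ?_⟩
    rw [zero_pow (hw j).ne', zero_mul]
    by_cases hj : v j = 0
    · exact hz0 j hj
    · have h1 := hu i j hi hj
      rw [hzi, zero_div, zero_pow (hw j).ne'] at h1
      have h2 := (pow_eq_zero_iff (hw i).ne').1 h1.symm
      rcases div_eq_zero_iff.1 h2 with h3 | h3
      · exact h3
      · exact absurd h3 hj
  · push Not at hz
    obtain ⟨m, hm⟩ := M1_bezout I w (fun d hd => hg d fun i hi =>
      hd i (Finset.mem_filter.2 ⟨Finset.mem_univ _, hi⟩))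
    refine ⟨∏ i ∈ I, (z i / v i) ^ m i, fun j => ?_⟩
    by_cases hj : v j = 0
    · rw [hz0 j hj, hj, mul_zero]
    · have hzj : z j / v j ≠ 0 := div_ne_zero (hz j hj) hj
      have h1 : (∏ i ∈ I, (z i / v i) ^ m i) ^ w j = z j / v j := by
        calc (∏ i ∈ I, (z i / v i) ^ m i) ^ w j = ∏ i ∈ I, (z j / v j) ^ (m i * (w i : ℤ)) := by
              rw [← Finset.prod_pow]
              refine Finset.prod_congr rfl fun i hi => ?_
              have hi' : v i ≠ 0 := (Finset.mem_filter.1 hi).2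
              rw [← zpow_natCast ((z i / v i) ^ m i) (w j), ← zpow_mul, mul_comm (m i) ((w j : ℕ) : ℤ),
                zpow_mul, zpow_natCast, hu i j hi' hj, ← zpow_natCast (z j / v j) (w i), ← zpow_mul,
                mul_comm ((w i : ℕ) : ℤ) (m i)]
          _ = (z j / v j) ^ (∑ i ∈ I, m i * (w i : ℤ)) := by
              clear_value I
              clear hm hI
              induction I using Finset.induction_on with
              | empty => simp
              | insert a s ha ih => rw [Finset.prod_insert ha, Finset.sum_insert ha, zpow_add₀ hzj, ih]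
          _ = z j / v j := by rw [hm, zpow_one]
      rw [h1, div_mul_cancel₀ _ hj]

theorem orbit_poly {K : Type} [Field K] {n : ℕ} {w : Fin (n + 1) → ℕ} (hw : ∀ i, 0 < w i)
    {v : Fin (n + 1) → K} (hv : v ≠ 0) (hg : Gc w v) {p : Fin (n + 1) → Polynomial K}
    (h : Bi w v p) (h0 : ∀ i, (p i).coeff 0 = v i) :
    ∃ f : Polynomial K, f.eval 0 = 1 ∧ ∀ i, p i = Polynomial.C (v i) * f ^ w i := by
  let F : Type := FractionRing (Polynomial K)
  let φ : Polynomial K →+* F := algebraMap (Polynomial K) F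
  have hφ : Function.Injective φ := IsFractionRing.injective (Polynomial K) F
  have hφ0 : ∀ c : K, φ (Polynomial.C c) ≠ 0 ↔ c ≠ 0 := by
    intro c
    rw [not_iff_not, map_eq_zero_iff φ hφ, Polynomial.C_eq_zero]
  obtain ⟨j₀, hj₀⟩ := Function.ne_iff.1 hv
  have hj₀' : v j₀ ≠ 0 := hj₀
  have hvF : (fun i => φ (Polynomial.C (v i))) ≠ 0 := by
    intro h1
    exact (hφ0 _).2 hj₀' (congrFun h1 j₀)
  have hgF : Gc w fun i => φ (Polynomial.C (v i)) := by
    intro d hd
    exact hg d fun i hi => hd i ((hφ0 _).2 hi)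
  obtain ⟨a, ha⟩ := orbit (z := fun i => φ (p i)) hw hvF hgF (by
    intro i j
    have h1 := congrArg φ (h i j)
    rw [map_mul, map_mul, map_pow φ, map_pow φ, Polynomial.C_pow, Polynomial.C_pow, map_pow φ, map_pow φ] at h1
    exact h1)
  have hint : IsIntegral (Polynomial K) a := by
    refine IsIntegral.of_pow (hw j₀) ?_
    have h1 : a ^ w j₀ = φ (p j₀ * Polynomial.C (v j₀)⁻¹) := by
      have h2 : φ (p j₀) = a ^ w j₀ * φ (Polynomial.C (v j₀)) := ha j₀
      rw [map_mul, h2, mul_assoc, ← map_mul, ← Polynomial.C_mul, mul_inv_cancel₀ hj₀', Polynomial.C_1, map_one,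
        mul_one]
    rw [h1]
    exact isIntegral_algebraMap
  obtain ⟨f, hf⟩ := IsIntegrallyClosed.isIntegral_iff.1 hint
  have hp : ∀ i, p i = Polynomial.C (v i) * f ^ w i := by
    intro i
    apply hφ
    have h2 : φ (p i) = a ^ w i * φ (Polynomial.C (v i)) := ha i
    rw [h2, ← hf, map_mul, map_pow φ, mul_comm]
  refine ⟨f, ?_, hp⟩
  have h3 : ∀ i, v i ≠ 0 → f.eval 0 ^ w i = 1 := by
    intro i hi
    have h4 := h0 i
    rw [hp i, Polynomial.coeff_zero_eq_eval_zero, Polynomial.eval_mul, Polynomial.eval_C, Polynomial.eval_pow] at h4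
    exact mul_left_cancel₀ hi (by rw [h4, mul_one])
  rw [← orderOf_eq_one_iff]
  exact hg _ fun i hi => orderOf_dvd_of_pow_eq_one (h3 i hi)

end Pool.Agent.Lib.MP_1e3e9c_agM
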