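import Mathlib
import Pool.Agent.Lib.MP_1e3e9c_agM.MDefs

/-!
# MP_1e3e9c_ag, project M, leaf M2: transfer of the hypotheses to larger fields

PROOF. (1) `mn_transfer`. Suppose `D' < D` and `p` over `L` contradict `Mn L`: some polynomial `p i ^ w j * C (v j ^ w i) - p j ^ w i * C (v i ^ w j)` has a nonzero coefficient, of index `m`. Let `u` be the vector of the coefficients
of the `p i` (finitely many: `Σ i, Fin (w i * D' + 1)`). The conditions on `u` (the constant coefficients are the `v i`; for `P ∈ S` all coefficients of `aeval p P` are `0`) are polynomial equations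
over `k`, the coefficient `m` above is a polynomial `Q(u) ≠ 0` over `k`. Let `J ⊆ k[U]` be the ideal of all polynomials over `k` which vanish at `u` (kernel of `aeval u`, a prime ideal); `Q ∉ J`, so by the
Nullstellensatz (`k` algebraically closed, `U` finite, `J` radical: `MvPolynomial.vanishingIdeal_zeroLocus_eq_radical`) there is `c : U → k` with `q(c) = 0` for `q ∈ J` and `Q(c) ≠ 0`. The tuple `p'` over `k`
with the coefficients `c` contradicts `Mn k` (`bc k v = v`). (2) `gp_transfer`: the same for a point `x` over `L` and a divisor `d ≠ 1` of all the `w i` with `x i ≠ 0`: the point `c` over `k` with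
`q(c) = 0` for `q` in the kernel of `aeval x` and `c i₀ ≠ 0` for one `i₀` with `x i₀ ≠ 0`: if `x i = 0` then `X i ∈ J`, so `c i = 0`; so `d ∣ w i` for all `i` with `c i ≠ 0`: contradiction to `Gp k`. (3) `mn_of_const`: for polynomials `p` over the infinite field `k` with
`p(t) = (a^(w_i) v_i)_i` for all `t`: `(a^(w_i) v_i)^(w_j) v_j^(w_i) = a^(w_i w_j) v_i^(w_j) v_j^(w_i)` is symmetric, so the two polynomials of `Bi` agree at all `t`.
-/

set_option autoImplicit false

namespace Pool.Agent.Lib.MP_1e3e9c_agM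

open Pool.Agent.Lib.MP_1e3e9c_agR

/-- A point over the algebraically closed field which satisfies all relations of `u`, and at which
`Q` is not zero. -/
private theorem M2_null {k L U : Type} [Field k] [IsAlgClosed k] [Field L] [Algebra k L] [Finite U]
    (u : U → L) (Q : MvPolynomial U k) (hQ : MvPolynomial.aeval u Q ≠ 0) :
    ∃ c : U → k, (∀ q : MvPolynomial U k, MvPolynomial.aeval u q = 0 → MvPolynomial.aeval c q = 0) ∧
      MvPolynomial.aeval c Q ≠ 0 := by
  have hJ : (RingHom.ker (MvPolynomial.aeval (R := k) u)).IsPrime := RingHom.ker_isPrime _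
  have h1 : (RingHom.ker (MvPolynomial.aeval (R := k) u)).radical =
      RingHom.ker (MvPolynomial.aeval (R := k) u) := hJ.isRadical.radical
  have h2 := MvPolynomial.vanishingIdeal_zeroLocus_eq_radical (k := k) (K := k)
    (RingHom.ker (MvPolynomial.aeval (R := k) u))
  rw [h1] at h2
  have h3 : Q ∉ MvPolynomial.vanishingIdeal k
      (MvPolynomial.zeroLocus k (RingHom.ker (MvPolynomial.aeval (R := k) u))) := by
    rw [h2]
    intro h4
    exact hQ ((RingHom.mem_ker).1 h4)
  rw [MvPolynomial.mem_vanishingIdeal_iff] at h3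
  push Not at h3
  obtain ⟨c, hc, h4⟩ := h3
  rw [MvPolynomial.mem_zeroLocus_iff] at hc
  exact ⟨c, fun q hq => hc q ((RingHom.mem_ker).2 hq), h4⟩

/-- The curve with the given coefficients. -/
private noncomputable def M2_crv {A : Type} [CommRing A] {n : ℕ} (w : Fin (n + 1) → ℕ) (D : ℕ)
    (c : (Σ i : Fin (n + 1), Fin (w i * D + 1)) → A) (i : Fin (n + 1)) : Polynomial A :=
  ∑ l : Fin (w i * D + 1), Polynomial.C (c ⟨i, l⟩) * Polynomial.X ^ l.val

private theorem M2_crv_natDegree {A : Type} [CommRing A] {n : ℕ} (w : Fin (n + 1) → ℕ) (D : ℕ)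
    (c : (Σ i : Fin (n + 1), Fin (w i * D + 1)) → A) (i : Fin (n + 1)) :
    (M2_crv w D c i).natDegree ≤ w i * D := by
  refine Polynomial.natDegree_sum_le_of_forall_le _ _ fun l _ => ?_
  exact (Polynomial.natDegree_C_mul_X_pow_le _ _).trans (Nat.lt_succ_iff.1 l.isLt)

private theorem M2_crv_zero {A : Type} [CommRing A] {n : ℕ} (w : Fin (n + 1) → ℕ) (D : ℕ)
    (c : (Σ i : Fin (n + 1), Fin (w i * D + 1)) → A) (i : Fin (n + 1)) :
    (M2_crv w D c i).coeff 0 = c ⟨i, 0⟩ := by
  unfold M2_crv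
  rw [Polynomial.finsetSum_coeff, Finset.sum_eq_single (0 : Fin (w i * D + 1))]
  · simp
  · intro l _ hl
    have h1 : l.val ≠ 0 := fun h => hl (Fin.ext h)
    rw [Polynomial.coeff_C_mul_X_pow, if_neg (fun h => h1 h.symm)]
  · intro h
    exact absurd (Finset.mem_univ _) h

private theorem M2_crv_map {A B : Type} [CommRing A] [CommRing B] {n : ℕ} (w : Fin (n + 1) → ℕ)
    (D : ℕ) (c : (Σ i : Fin (n + 1), Fin (w i * D + 1)) → A) (f : A →+* B) (i : Fin (n + 1)) :
    (M2_crv w D c i).map f = M2_crv w D (fun a => f (c a)) i := by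
  unfold M2_crv
  rw [Polynomial.map_sum]
  refine Finset.sum_congr rfl fun l _ => ?_
  rw [Polynomial.map_mul, Polynomial.map_C, Polynomial.map_pow, Polynomial.map_X]

private theorem M2_crv_coeff {A : Type} [CommRing A] {n : ℕ} (w : Fin (n + 1) → ℕ) (D : ℕ)
    (p : Fin (n + 1) → Polynomial A) (i : Fin (n + 1)) (h : (p i).natDegree ≤ w i * D) :
    M2_crv w D (fun a => (p a.1).coeff a.2.val) i = p i := by
  have h1 := Polynomial.as_sum_range_C_mul_X_pow' (p i) (Nat.lt_succ_iff.2 h)
  rw [Finset.sum_range] at h1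
  exact h1.symm

theorem mn_transfer {k L : Type} [Field k] [IsAlgClosed k] [Field L] [Algebra k L] {n D : ℕ}
    {w : Fin (n + 1) → ℕ} {S : Set (MvPolynomial (Fin (n + 1)) k)} {v : Fin (n + 1) → k}
    (h : Mn k w S D v) : Mn L w S D v := by
  intro D' hD' p hp hp0 hpS
  by_contra hB
  have h1 : ∃ i₀ j₀, p i₀ ^ w j₀ * Polynomial.C (bc L v j₀ ^ w i₀) -
      p j₀ ^ w i₀ * Polynomial.C (bc L v i₀ ^ w j₀) ≠ 0 := by
    by_contra h2
    push Not at h2
    exact hB fun i j => sub_eq_zero.1 (h2 i j)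
  obtain ⟨i₀, j₀, h2⟩ := h1
  obtain ⟨m, hm⟩ : ∃ m, (p i₀ ^ w j₀ * Polynomial.C (bc L v j₀ ^ w i₀) -
      p j₀ ^ w i₀ * Polynomial.C (bc L v i₀ ^ w j₀)).coeff m ≠ 0 := by
    by_contra h3
    push Not at h3
    exact h2 (Polynomial.ext fun m => by rw [h3 m, Polynomial.coeff_zero])
  obtain ⟨u, hu⟩ : ∃ u : (Σ i : Fin (n + 1), Fin (w i * D' + 1)) → L,
      u = fun a => (p a.1).coeff a.2.val := ⟨_, rfl⟩
  -- the generic curve
  obtain ⟨G, hG⟩ : ∃ G : Fin (n + 1) →
      Polynomial (MvPolynomial (Σ i : Fin (n + 1), Fin (w i * D' + 1)) k),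
      G = M2_crv w D' (fun a => MvPolynomial.X a) := ⟨_, rfl⟩
  have hGmap : ∀ {A : Type} [CommRing A] [Algebra k A]
      (c : (Σ i : Fin (n + 1), Fin (w i * D' + 1)) → A) (i : Fin (n + 1)),
      Polynomial.mapAlgHom (MvPolynomial.aeval (R := k) c) (G i) = M2_crv w D' c i := by
    intro A _ _ c i
    rw [hG, Polynomial.coe_mapAlgHom, M2_crv_map]
    congr 1
    funext a
    exact MvPolynomial.aeval_X c a
  have hup : ∀ i, Polynomial.mapAlgHom (MvPolynomial.aeval (R := k) u) (G i) = p i := by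
    intro i
    rw [hGmap, hu, M2_crv_coeff w D' p i (hp i)]
  -- the polynomial which is not zero at u
  obtain ⟨Q, hQ⟩ : ∃ Q : MvPolynomial (Σ i : Fin (n + 1), Fin (w i * D' + 1)) k,
      Q = (G i₀ ^ w j₀ * Polynomial.C (MvPolynomial.C (v j₀ ^ w i₀)) -
        G j₀ ^ w i₀ * Polynomial.C (MvPolynomial.C (v i₀ ^ w j₀))).coeff m := ⟨_, rfl⟩
  have hcoef : ∀ {A : Type} [CommRing A] [Algebra k A]
      (c : (Σ i : Fin (n + 1), Fin (w i * D' + 1)) → A)
      (F : Polynomial (MvPolynomial (Σ i : Fin (n + 1), Fin (w i * D' + 1)) k)) (l : ℕ),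
      MvPolynomial.aeval c (F.coeff l) =
        (Polynomial.mapAlgHom (MvPolynomial.aeval (R := k) c) F).coeff l := by
    intro A _ _ c F l
    rw [Polynomial.coe_mapAlgHom, Polynomial.coeff_map]
    rfl
  have hCC : ∀ {A : Type} [CommRing A] [Algebra k A]
      (c : (Σ i : Fin (n + 1), Fin (w i * D' + 1)) → A) (a : k),
      Polynomial.mapAlgHom (MvPolynomial.aeval (R := k) c) (Polynomial.C (MvPolynomial.C a)) =
        Polynomial.C (algebraMap k A a) := by
    intro A _ _ c a
    rw [Polynomial.coe_mapAlgHom, Polynomial.map_C]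
    congr 1
    exact MvPolynomial.aeval_C c a
  have hQc : ∀ {A : Type} [CommRing A] [Algebra k A]
      (c : (Σ i : Fin (n + 1), Fin (w i * D' + 1)) → A),
      MvPolynomial.aeval c Q = (M2_crv w D' c i₀ ^ w j₀ *
        Polynomial.C (algebraMap k A (v j₀) ^ w i₀) - M2_crv w D' c j₀ ^ w i₀ *
        Polynomial.C (algebraMap k A (v i₀) ^ w j₀)).coeff m := by
    intro A _ _ c
    have hsq : ∀ (i j : Fin (n + 1)), Polynomial.mapAlgHom (MvPolynomial.aeval (R := k) c)
        (G i ^ w j * Polynomial.C (MvPolynomial.C (v j ^ w i))) =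
        M2_crv w D' c i ^ w j * Polynomial.C (algebraMap k A (v j) ^ w i) := by
      intro i j
      rw [map_mul, hCC, map_pow (algebraMap k A), ← hGmap]
      congr 1
      exact map_pow _ _ _
    rw [hQ, hcoef, map_sub, hsq, hsq]
  have hQu : MvPolynomial.aeval u Q ≠ 0 := by
    rw [hQc, ← hGmap, ← hGmap, hup, hup]
    exact hm
  obtain ⟨c, hc, hcQ⟩ := M2_null u Q hQu
  have hBi := h D' hD' (M2_crv w D' c) (M2_crv_natDegree w D' c) (fun i => ?_) (fun P hP => ?_)
  · apply hcQ
    rw [hQc]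
    have h3 := hBi i₀ j₀
    have h4 : ∀ i, bc k v i = algebraMap k k (v i) := fun _ => rfl
    rw [h4, h4] at h3
    rw [h3, sub_self, Polynomial.coeff_zero]
  · rw [M2_crv_zero]
    have h3 := hc (MvPolynomial.X ⟨i, 0⟩ - MvPolynomial.C (v i)) (by
      rw [map_sub, MvPolynomial.aeval_X, MvPolynomial.aeval_C, hu]
      have h4 : (p i).coeff 0 = algebraMap k L (v i) := hp0 i
      show (p i).coeff 0 - algebraMap k L (v i) = 0
      rw [h4, sub_self])
    rw [map_sub, MvPolynomial.aeval_X, MvPolynomial.aeval_C] at h3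
    exact sub_eq_zero.1 h3
  · have hP2 : ∀ {A : Type} [CommRing A] [Algebra k A]
        (c : (Σ i : Fin (n + 1), Fin (w i * D' + 1)) → A),
        Polynomial.mapAlgHom (MvPolynomial.aeval (R := k) c) (MvPolynomial.aeval G P) =
          MvPolynomial.aeval (M2_crv w D' c) P := by
      intro A _ _ c
      rw [MvPolynomial.comp_aeval_apply]
      congr 2
      funext i
      exact hGmap c i
    refine Polynomial.ext fun l => ?_
    rw [← hP2 c, ← hcoef, Polynomial.coeff_zero]
    apply hc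
    rw [hcoef, hP2]
    have h3 : M2_crv w D' u = p := by
      funext i
      rw [← hGmap, hup]
    rw [h3, hpS P hP, Polynomial.coeff_zero]

theorem gp_transfer {k L : Type} [Field k] [IsAlgClosed k] [Field L] [Algebra k L] {n : ℕ}
    {w : Fin (n + 1) → ℕ} {S : Set (MvPolynomial (Fin (n + 1)) k)} (h : Gp k w S) : Gp L w S := by
  intro x hx hxS d hd
  obtain ⟨i₀, hi₀⟩ : ∃ i, x i ≠ 0 := by
    by_contra h1
    push Not at h1
    exact hx (funext h1)
  obtain ⟨c, hc, hcQ⟩ := M2_null x (MvPolynomial.X i₀ : MvPolynomial (Fin (n + 1)) k)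
    (by rwa [MvPolynomial.aeval_X])
  rw [MvPolynomial.aeval_X] at hcQ
  refine h c (fun h1 => hcQ (by rw [h1]; rfl)) (fun P hP => hc P (hxS P hP)) d fun i hi => ?_
  apply hd
  intro h1
  apply hi
  have h2 := hc (MvPolynomial.X i) (by rw [MvPolynomial.aeval_X, h1])
  rwa [MvPolynomial.aeval_X] at h2

theorem bi_of_const {k : Type} [Field k] [Infinite k] {n : ℕ} {w : Fin (n + 1) → ℕ}
    {v : Fin (n + 1) → k} {p : Fin (n + 1) → Polynomial k}
    (h : ∀ t, ∃ a : k, ∀ i, (p i).eval t = a ^ w i * v i) : Bi w v p := by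
  intro i j
  refine Polynomial.funext fun t => ?_
  obtain ⟨a, ha⟩ := h t
  rw [Polynomial.eval_mul, Polynomial.eval_mul, Polynomial.eval_pow, Polynomial.eval_pow,
    Polynomial.eval_C, Polynomial.eval_C, ha, ha, mul_pow, mul_pow, ← pow_mul, ← pow_mul]
  rw [mul_comm (w j) (w i)]
  ring

end Pool.Agent.Lib.MP_1e3e9c_agM
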