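import Mathlib
import Pool.Agent.Lib.MP_1e3e9c_agM.MDefs

/-!
# MP_1e3e9c_ag, project M, leaf M3: no base points

PROOF. (1) `no_base`: suppose `(p i).eval b = 0` for all `i`. `b ≠ 0` (`p(0) = v ≠ 0`). Let `o i` be the multiplicity of the zero `b` of `p i` (`Polynomial.rootMultiplicity`), `i₀` an index with `p i₀ ≠ 0` and `o i₀ * w i ≤ o i * w i₀` for all `i` with `p i ≠ 0` (minimum of
`o i / w i`). Write `p i = (X - C b)^(o i) * q i`, `q i (b) ≠ 0`, and let `e i = q i (b)` if `p i ≠ 0` and `o i * w i₀ = o i₀ * w i`, else `0`. The point `e` is `≠ 0` and in the zero set of `S`: for `P` weighted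
homogeneous of weight `m` (all `P ∈ S` are), the terms of `P(p)`: a monomial `x^α`, `∑ w i α i = m`, has order `∑ α i o i` at `b`, `w i₀ * ∑ α i o i ≥ o i₀ * m`, with equality iff `α` is supported on the `i` with `e i ≠ 0` (or `p i = 0` kills the term); so
if `w i₀ ∣ o i₀ * m` the coefficient of `(X - C b)^(o i₀ m / w i₀)` in `P(p) = 0` is `P(e)`, and otherwise no monomial of `P` is supported on `{e i ≠ 0}` and `P(e) = 0`. (Simpler: put `b = 0` by a shift and use `T^(w i₀)` instead of `X`: `p i (T^(w i₀)) = T^(o i₀ w i) * q' i (T)` with polynomials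
`q' i`, `q' i (0) = e i`; `P(q') * T^(o i₀ m) = P(p (T^(w i₀))) = 0`, so `P(q') = 0` and `P(e) = P(q'(0)) = 0`. RECOMMENDED.) By `hG` the weights of the `i` with `e i ≠ 0` have `gcd` `1`; for these `o i * w i₀ = o i₀ * w i`, so `w i₀ ∣ o i₀ * w i` for all of them and
`w i₀ ∣ o i₀` : `o i₀ = α w i₀`, `α ≥ 1`, and `o i ≥ α w i` for all `i` with `p i ≠ 0`. So `p i = (1 - X / b)^(α w i) * f i` with polynomials `f i`, `natDegree (f i) ≤ w i * (D - α)`
(`α ≤ D`, because `p i₀ ≠ 0` has degree `≤ w i₀ D`), `f i (0) = v i`, and `aeval f P = 0` (`(1 - X/b)^(α m) * aeval f P = aeval p P = 0`). By `Mn L` (`D' = D - α < D`) `Bi` holds for `f`, so also for `p`: contradiction.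
(2) `no_base_inf`: the same at infinity: suppose all coefficients of `p i` at `w i * D` are `0`, `o i = w i * D - natDegree (p i)`; the polynomials `r i = reflect (w i * D) (p i)` have all their zeros at `0`:
the argument of (1) at the point `0` of `r` gives `α ≥ 1` with `natDegree (p i) ≤ w i * (D - α)` for all `i`, and `Mn L` with `D' = D - α` for `p` itself.
-/

set_option autoImplicit false

namespace Pool.Agent.Lib.MP_1e3e9c_agM

open Pool.Agent.Lib.MP_1e3e9c_agR

/-- Weighted homogeneity. -/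
private theorem M3_hom {k R : Type} [Field k] [CommRing R] [Algebra k R] {n m : ℕ}
    {w : Fin (n + 1) → ℕ} {P : MvPolynomial (Fin (n + 1)) k} (hP : P.IsWeightedHomogeneous w m)
    (t : R) (q : Fin (n + 1) → R) :
    MvPolynomial.aeval (fun i => t ^ w i * q i) P = t ^ m * MvPolynomial.aeval q P := by
  rw [MvPolynomial.aeval_def, MvPolynomial.aeval_def, MvPolynomial.eval₂_eq',
    MvPolynomial.eval₂_eq', Finset.mul_sum]
  refine Finset.sum_congr rfl fun d hd => ?_
  have h1 : Finsupp.weight w d = m := hP (MvPolynomial.mem_support_iff.1 hd)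
  have h2 : ∑ i, d i * w i = m := by
    rw [← h1, Finsupp.weight_apply, Finsupp.sum_fintype _ _ fun i => by rw [zero_smul]]
    exact Finset.sum_congr rfl fun i _ => by rw [smul_eq_mul]
  have h3 : ∏ i, (t ^ w i * q i) ^ d i = t ^ m * ∏ i, q i ^ d i := by
    rw [← h2, ← Finset.prod_pow_eq_pow_sum, ← Finset.prod_mul_distrib]
    refine Finset.prod_congr rfl fun i _ => ?_
    rw [mul_pow, ← pow_mul, mul_comm (w i)]
  rw [h3]
  ring

/-- The argument at the point `0`. -/
private theorem M3_core {k L : Type} [Field k] [Field L] [Algebra k L] {n : ℕ}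
    {w : Fin (n + 1) → ℕ} (hw : ∀ i, 0 < w i) {S : Set (MvPolynomial (Fin (n + 1)) k)}
    (hS : ∀ P ∈ S, ∃ m, P.IsWeightedHomogeneous w m) (hG : Gp L w S)
    {r : Fin (n + 1) → Polynomial L} (hr : ∃ i, r i ≠ 0) (hr0 : ∀ i, (r i).coeff 0 = 0)
    (hP : ∀ P ∈ S, MvPolynomial.aeval r P = 0) :
    ∃ α : ℕ, 1 ≤ α ∧ ∀ i, Polynomial.X ^ (α * w i) ∣ r i := by
  classical
  set o : Fin (n + 1) → ℕ := fun i => (r i).natTrailingDegree with ho
  obtain ⟨i₁, hi₁⟩ := hr
  obtain ⟨i₀, hi₀, hmin⟩ := Finset.exists_min_image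
    (Finset.univ.filter fun i => r i ≠ 0) (fun i => (o i : ℚ) / w i)
    ⟨i₁, Finset.mem_filter.2 ⟨Finset.mem_univ _, hi₁⟩⟩
  have hi₀ : r i₀ ≠ 0 := (Finset.mem_filter.1 hi₀).2
  have hmin' : ∀ i, r i ≠ 0 → o i₀ * w i ≤ o i * w i₀ := by
    intro i hi
    have h1 := hmin i (Finset.mem_filter.2 ⟨Finset.mem_univ _, hi⟩)
    have h2 : (0 : ℚ) < w i₀ := by exact_mod_cast hw i₀
    have h3 : (0 : ℚ) < w i := by exact_mod_cast hw i
    rw [div_le_div_iff₀ h2 h3] at h1
    exact_mod_cast h1
  have hW := hw i₀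
  -- divisibility after the substitution
  have hdv : ∀ i, Polynomial.X ^ (o i₀ * w i) ∣ Polynomial.expand L (w i₀) (r i) := by
    intro i
    rw [Polynomial.X_pow_dvd_iff]
    intro d hd
    rw [Polynomial.coeff_expand hW]
    split_ifs with h1
    · by_cases h2 : r i = 0
      · rw [h2, Polynomial.coeff_zero]
      · refine Polynomial.coeff_eq_zero_of_lt_natTrailingDegree ?_
        refine (Nat.div_lt_iff_lt_mul hW).2 (hd.trans_le ?_)
        exact hmin' i h2
    · rfl
  choose q hq using hdv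
  have hq0 : ∀ P ∈ S, MvPolynomial.aeval q P = 0 := by
    intro P hPS
    obtain ⟨m, hm⟩ := hS P hPS
    have h1 : MvPolynomial.aeval (fun i => Polynomial.expand L (w i₀) (r i)) P = 0 := by
      have h2 := MvPolynomial.comp_aeval_apply r
        ((Polynomial.expand L (w i₀)).restrictScalars k) P
      rw [hP P hPS, map_zero] at h2
      exact h2.symm
    have h3 : (fun i => Polynomial.expand L (w i₀) (r i)) =
        fun i => (Polynomial.X ^ o i₀ : Polynomial L) ^ w i * q i := by
      funext i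
      rw [hq i, pow_mul]
    rw [h3, M3_hom hm] at h1
    exact (mul_eq_zero.1 h1).resolve_left (pow_ne_zero _ (pow_ne_zero _ Polynomial.X_ne_zero))
  set e : Fin (n + 1) → L := fun i => (q i).coeff 0 with he
  have hec : ∀ i, e i = (Polynomial.expand L (w i₀) (r i)).coeff (o i₀ * w i) := by
    intro i
    rw [hq i]
    have h1 := Polynomial.coeff_X_pow_mul (q i) (o i₀ * w i) 0
    rw [zero_add] at h1
    exact h1.symm
  have heP : ∀ P ∈ S, MvPolynomial.aeval e P = 0 := by
    intro P hPS
    have h2 := MvPolynomial.comp_aeval_apply q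
      ((Polynomial.aeval (0 : L)).restrictScalars k) P
    rw [hq0 P hPS, map_zero] at h2
    have h3 : e = fun i => ((Polynomial.aeval (0 : L)).restrictScalars k) (q i) := by
      funext i
      change (q i).coeff 0 = _
      rw [AlgHom.restrictScalars_apply, Polynomial.coe_aeval_eq_eval,
        Polynomial.coeff_zero_eq_eval_zero]
    rw [h3]
    exact h2.symm
  have he0 : e ≠ 0 := by
    intro h1
    have h2 := congrFun h1 i₀
    rw [hec, Polynomial.coeff_expand hW, if_pos (dvd_mul_left _ _), Nat.mul_div_cancel _ hW,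
      Pi.zero_apply, Polynomial.coeff_natTrailingDegree_eq_zero] at h2
    exact hi₀ h2
  have hgc := hG e he0 heP
  have hdvd : w i₀ ∣ o i₀ := by
    have hg : 0 < Nat.gcd (w i₀) (o i₀) := Nat.gcd_pos_of_pos_left _ hW
    have h1 := hgc (w i₀ / Nat.gcd (w i₀) (o i₀)) (fun i hi => by
      have h2 : w i₀ ∣ o i₀ * w i := by
        by_contra h3
        apply hi
        rw [hec, Polynomial.coeff_expand hW, if_neg h3]
      have h4 := Nat.coprime_div_gcd_div_gcd hg
      refine h4.dvd_of_dvd_mul_left ?_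
      refine Nat.dvd_of_mul_dvd_mul_left hg ?_
      rw [← mul_assoc, Nat.mul_div_cancel' (Nat.gcd_dvd_left _ _),
        Nat.mul_div_cancel' (Nat.gcd_dvd_right _ _)]
      exact h2)
    have h5 := Nat.div_mul_cancel (Nat.gcd_dvd_left (w i₀) (o i₀))
    rw [h1, one_mul] at h5
    rw [← h5]
    exact Nat.gcd_dvd_right _ _
  obtain ⟨α, hα⟩ := hdvd
  have ho0 : o i₀ ≠ 0 := by
    intro h1
    have h2 : (r i₀).coeff (r i₀).natTrailingDegree = 0 := by
      have h3 : (r i₀).natTrailingDegree = 0 := h1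
      rw [h3]
      exact hr0 i₀
    exact hi₀ (Polynomial.coeff_natTrailingDegree_eq_zero.1 h2)
  refine ⟨α, ?_, ?_⟩
  · rcases Nat.eq_zero_or_pos α with h1 | h1
    · rw [h1, mul_zero] at hα
      exact absurd hα ho0
    · exact h1
  · intro i
    by_cases hi : r i = 0
    · rw [hi]
      exact dvd_zero _
    · rw [Polynomial.X_pow_dvd_iff]
      intro d hd
      refine Polynomial.coeff_eq_zero_of_lt_natTrailingDegree (hd.trans_le ?_)
      have h1 := hmin' i hi
      rw [hα] at h1
      refine Nat.le_of_mul_le_mul_left (c := w i₀) ?_ hW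
      calc w i₀ * (α * w i) = w i₀ * α * w i := by ring
        _ ≤ o i * w i₀ := h1
        _ = w i₀ * o i := by ring

private theorem M3_bc {k L : Type} [Field k] [Field L] [Algebra k L] {n : ℕ}
    {v : Fin (n + 1) → k} (hv : v ≠ 0) : ∃ i, bc L v i ≠ 0 := by
  by_contra h
  push Not at h
  refine hv (funext fun i => ?_)
  have h1 := h i
  rw [bc] at h1
  rw [Pi.zero_apply]
  exact (map_eq_zero_iff _ (algebraMap k L).injective).1 h1

/-- The reflection of a product. -/
private theorem M3_refl {L : Type} [Field L] {n : ℕ} (N : Fin (n + 1) → ℕ)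
    (p : Fin (n + 1) → Polynomial L) (hd : ∀ i, (p i).natDegree ≤ N i) (d : Fin (n + 1) → ℕ)
    (s : Finset (Fin (n + 1))) :
    Polynomial.reflect (∑ i ∈ s, d i * N i) (∏ i ∈ s, p i ^ d i) =
      ∏ i ∈ s, Polynomial.reflect (N i) (p i) ^ d i := by
  classical
  have hp : ∀ i (a : ℕ), Polynomial.reflect (a * N i) (p i ^ a) =
      Polynomial.reflect (N i) (p i) ^ a := by
    intro i a
    induction a with
    | zero => rw [zero_mul, pow_zero, pow_zero, Polynomial.reflect_one, pow_zero]
    | succ a ih =>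
      rw [pow_succ, pow_succ, add_mul, one_mul, Polynomial.reflect_mul _ _ ?_ (hd i), ih]
      exact Polynomial.natDegree_pow_le_of_le a (hd i)
  induction s using Finset.induction_on with
  | empty =>
    rw [Finset.sum_empty, Finset.prod_empty, Finset.prod_empty, Polynomial.reflect_one, pow_zero]
  | insert x s hx ih =>
    rw [Finset.sum_insert hx, Finset.prod_insert hx, Finset.prod_insert hx,
      Polynomial.reflect_mul, ih, hp]
    · exact Polynomial.natDegree_pow_le_of_le _ (hd x)
    · refine (Polynomial.natDegree_prod_le _ _).trans (Finset.sum_le_sum fun i _ => ?_)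
      exact Polynomial.natDegree_pow_le_of_le _ (hd i)

private theorem M3_rsum {L ι : Type} [Field L] (N : ℕ) (s : Finset ι) (f : ι → Polynomial L) :
    Polynomial.reflect N (∑ i ∈ s, f i) = ∑ i ∈ s, Polynomial.reflect N (f i) := by
  classical
  induction s using Finset.induction_on with
  | empty => rw [Finset.sum_empty, Finset.sum_empty, Polynomial.reflect_zero]
  | insert x s hx ih => rw [Finset.sum_insert hx, Finset.sum_insert hx, Polynomial.reflect_add, ih]

private theorem M3_raev {k L : Type} [Field k] [Field L] [Algebra k L] {n m D : ℕ}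
    {w : Fin (n + 1) → ℕ} {P : MvPolynomial (Fin (n + 1)) k} (hP : P.IsWeightedHomogeneous w m)
    {p : Fin (n + 1) → Polynomial L} (hd : ∀ i, (p i).natDegree ≤ w i * D) :
    MvPolynomial.aeval (fun i => Polynomial.reflect (w i * D) (p i)) P =
      Polynomial.reflect (m * D) (MvPolynomial.aeval p P) := by
  rw [MvPolynomial.aeval_def, MvPolynomial.aeval_def, MvPolynomial.eval₂_eq',
    MvPolynomial.eval₂_eq', M3_rsum]
  refine Finset.sum_congr rfl fun d hdd => ?_
  have h1 : Finsupp.weight w d = m := hP (MvPolynomial.mem_support_iff.1 hdd)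
  have h2 : ∑ i, d i * (w i * D) = m * D := by
    rw [← h1, Finsupp.weight_apply, Finsupp.sum_fintype _ _ fun i => by rw [zero_smul],
      Finset.sum_mul]
    exact Finset.sum_congr rfl fun i _ => by rw [smul_eq_mul, mul_assoc]
  have h3 := M3_refl (fun i => w i * D) p hd (fun i => d i) Finset.univ
  rw [h2] at h3
  have h4 : algebraMap k (Polynomial L) (MvPolynomial.coeff d P) =
      Polynomial.C (algebraMap k L (MvPolynomial.coeff d P)) := rfl
  rw [h4, Polynomial.reflect_C_mul, h3]

theorem no_base {k L : Type} [Field k] [Field L] [Algebra k L] {n D : ℕ} {w : Fin (n + 1) → ℕ}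
    (hw : ∀ i, 0 < w i) {S : Set (MvPolynomial (Fin (n + 1)) k)}
    (hS : ∀ P ∈ S, ∃ m, P.IsWeightedHomogeneous w m) {v : Fin (n + 1) → k} (hv : v ≠ 0)
    (hM : Mn L w S D v) (hG : Gp L w S) {p : Fin (n + 1) → Polynomial L}
    (hd : ∀ i, (p i).natDegree ≤ w i * D) (h0 : ∀ i, (p i).coeff 0 = bc L v i)
    (hp : ∀ P ∈ S, MvPolynomial.aeval p P = 0) (hn : ¬ Bi w (bc L v) p) (b : L) :
    ∃ i, (p i).eval b ≠ 0 := by
  by_contra hb
  push Not at hb
  obtain ⟨j, hj⟩ := M3_bc (L := L) hv
  have hpj : p j ≠ 0 := by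
    intro h1
    have h2 := h0 j
    rw [h1, Polynomial.coeff_zero] at h2
    exact hj h2.symm
  have hb0 : b ≠ 0 := by
    rintro rfl
    have h2 := h0 j
    rw [Polynomial.coeff_zero_eq_eval_zero, hb j] at h2
    exact hj h2.symm
  have hco := M3_core (r := fun i => Polynomial.taylor b (p i)) hw hS hG
    ⟨j, fun h1 => hpj ((Polynomial.taylor_eq_zero _ _).1 h1)⟩
    (fun i => by rw [Polynomial.taylor_coeff_zero, hb i])
    (fun P hPS => by
      have h2 := MvPolynomial.comp_aeval_apply p
        ((Polynomial.taylorAlgHom b).restrictScalars k) P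
      rw [hp P hPS, map_zero] at h2
      exact h2.symm)
  obtain ⟨α, hα, hdv⟩ := hco
  -- the factor
  obtain ⟨u, huc, hu0, hud⟩ : ∃ u : Polynomial L,
      Polynomial.C (-b) * u = Polynomial.X - Polynomial.C b ∧ u.coeff 0 = 1 ∧
        u.natDegree = 1 := by
    refine ⟨(Polynomial.X - Polynomial.C b) * Polynomial.C (-b⁻¹), ?_, ?_, ?_⟩
    · rw [mul_comm, mul_assoc, ← Polynomial.C_mul, neg_mul_neg, inv_mul_cancel₀ hb0,
        Polynomial.C_1, mul_one]
    · rw [Polynomial.coeff_mul_C, Polynomial.coeff_sub, Polynomial.coeff_X_zero,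
        Polynomial.coeff_C_zero, zero_sub, neg_mul_neg, mul_inv_cancel₀ hb0]
    · rw [Polynomial.natDegree_mul_C (neg_ne_zero.2 (inv_ne_zero hb0)),
        Polynomial.natDegree_X_sub_C]
  have hune : u ≠ 0 := by
    intro h1
    rw [h1, Polynomial.natDegree_zero] at hud
    exact zero_ne_one hud
  have hdu : ∀ i, (u ^ α) ^ w i ∣ p i := by
    intro i
    have h1 : (Polynomial.X - Polynomial.C b) ^ (α * w i) ∣ p i := by
      obtain ⟨g, hg⟩ := hdv i
      refine ⟨Polynomial.taylor (-b) g, ?_⟩
      have h2 := congrArg (Polynomial.taylor (-b)) hg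
      rw [Polynomial.taylor_taylor, neg_add_cancel, Polynomial.taylor_zero, Polynomial.taylor_mul,
        Polynomial.taylor_pow, Polynomial.taylor_X, Polynomial.C_neg, ← sub_eq_add_neg] at h2
      exact h2
    rw [← pow_mul]
    refine dvd_trans ?_ h1
    rw [← huc, mul_pow]
    exact dvd_mul_left _ _
  choose f hf using hdu
  have hf0 : ∀ i, (f i).coeff 0 = bc L v i := by
    intro i
    rw [← h0 i, hf i, Polynomial.mul_coeff_zero, Polynomial.coeff_zero_eq_eval_zero (_ ^ _),
      Polynomial.eval_pow, Polynomial.eval_pow, ← Polynomial.coeff_zero_eq_eval_zero, hu0, one_pow,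
      one_pow, one_mul]
  have hfd : ∀ i, (f i).natDegree ≤ w i * (D - α) := by
    intro i
    by_cases h1 : f i = 0
    · rw [h1, Polynomial.natDegree_zero]; exact Nat.zero_le _
    · have h2 := hd i
      rw [hf i, Polynomial.natDegree_mul (pow_ne_zero _ (pow_ne_zero _ hune)) h1,
        Polynomial.natDegree_pow, Polynomial.natDegree_pow, hud, mul_one] at h2
      rw [Nat.mul_sub]
      have h3 : w i * (α * 1) = w i * α := by rw [mul_one]
      omega
  have hαD : α ≤ D := by
    have h1 := hd j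
    have hfj : f j ≠ 0 := by
      intro h2
      rw [hf j, h2, mul_zero] at hpj
      exact hpj rfl
    rw [hf j, Polynomial.natDegree_mul (pow_ne_zero _ (pow_ne_zero _ hune)) hfj,
      Polynomial.natDegree_pow, Polynomial.natDegree_pow, hud, mul_one] at h1
    exact Nat.le_of_mul_le_mul_left (le_trans (Nat.le_add_right _ _) h1) (hw j)
  have hfP : ∀ P ∈ S, MvPolynomial.aeval f P = 0 := by
    intro P hPS
    obtain ⟨m, hm⟩ := hS P hPS
    have h1 := hp P hPS
    have h2 : p = fun i => (u ^ α) ^ w i * f i := funext hf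
    rw [h2, M3_hom hm] at h1
    exact (mul_eq_zero.1 h1).resolve_left (pow_ne_zero _ (pow_ne_zero _ hune))
  have hBi := hM (D - α) (by omega) f hfd hf0 hfP
  apply hn
  intro i i'
  have h1 := hBi i i'
  rw [hf i, hf i', mul_pow, mul_assoc, h1, ← mul_assoc, pow_right_comm, ← mul_pow]

theorem no_base_inf {k L : Type} [Field k] [Field L] [Algebra k L] {n D : ℕ}
    {w : Fin (n + 1) → ℕ} (hw : ∀ i, 0 < w i) {S : Set (MvPolynomial (Fin (n + 1)) k)}
    (hS : ∀ P ∈ S, ∃ m, P.IsWeightedHomogeneous w m) {v : Fin (n + 1) → k} (hv : v ≠ 0)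
    (hM : Mn L w S D v) (hG : Gp L w S) {p : Fin (n + 1) → Polynomial L}
    (hd : ∀ i, (p i).natDegree ≤ w i * D) (h0 : ∀ i, (p i).coeff 0 = bc L v i)
    (hp : ∀ P ∈ S, MvPolynomial.aeval p P = 0) (hn : ¬ Bi w (bc L v) p) :
    ∃ i, (p i).coeff (w i * D) ≠ 0 := by
  by_contra hb
  push Not at hb
  obtain ⟨j, hj⟩ := M3_bc (L := L) hv
  have hpj : p j ≠ 0 := by
    intro h1
    have h2 := h0 j
    rw [h1, Polynomial.coeff_zero] at h2
    exact hj h2.symm
  have hco := M3_core (r := fun i => Polynomial.reflect (w i * D) (p i)) hw hS hG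
    ⟨j, fun h1 => hpj (Polynomial.reflect_eq_zero_iff.1 h1)⟩
    (fun i => by rw [Polynomial.coeff_reflect, Polynomial.revAt_zero, hb i])
    (fun P hPS => by
      obtain ⟨m, hm⟩ := hS P hPS
      rw [M3_raev hm hd, hp P hPS, Polynomial.reflect_zero])
  obtain ⟨α, hα, hdv⟩ := hco
  have hz : ∀ i l, l ≤ w i * D → w i * D < l + α * w i → (p i).coeff l = 0 := by
    intro i l hl hl2
    have h1 := (Polynomial.X_pow_dvd_iff.1 (hdv i)) (w i * D - l) (by omega)
    rw [Polynomial.coeff_reflect, Polynomial.revAt_le (Nat.sub_le _ _), Nat.sub_sub_self hl] at h1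
    exact h1
  have hαD : α ≤ D := by
    by_contra h1
    push Not at h1
    apply hpj
    ext l
    rw [Polynomial.coeff_zero]
    rcases le_or_gt l (w j * D) with h2 | h2
    · refine hz j l h2 ?_
      have h3 : w j * D < α * w j := by
        rw [mul_comm α]
        exact Nat.mul_lt_mul_of_pos_left h1 (hw j)
      omega
    · exact Polynomial.coeff_eq_zero_of_natDegree_lt ((hd j).trans_lt h2)
  refine hn (hM (D - α) (by omega) p (fun i => ?_) h0 hp)
  rw [Polynomial.natDegree_le_iff_coeff_eq_zero]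
  intro l hl
  rcases le_or_gt l (w i * D) with h2 | h2
  · refine hz i l h2 ?_
    rw [Nat.mul_sub] at hl
    have h3 : α * w i = w i * α := mul_comm _ _
    omega
  · exact Polynomial.coeff_eq_zero_of_natDegree_lt ((hd i).trans_lt h2)

end Pool.Agent.Lib.MP_1e3e9c_agM
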