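import Mathlib

/-!
# MP_1e3e9c_ag, project M, leaf M4: a valuation ring which dominates a point of the closure (MATHLIB ONLY)

PROOF. `I = vanishingIdeal k Z` is radical, `I ≤ 𝔪 = ` the ideal of `c₀`. The minimal primes `𝔮_1, .., 𝔮_r` of `I` (finitely many, `I = ⨅ 𝔮_j`); `⨅ 𝔮_j ≤ 𝔪` gives a minimal prime `𝔮 ≤ 𝔪` (`Ideal.IsPrime.inf_le'`, or `Ideal.exists_minimalPrimes_le`). Some `q ∈ B` is not in `𝔮`: otherwise no
`c ∈ Z` is a zero of `𝔮` (by `hB`), so every `c ∈ Z` is a zero of one of the other `𝔮_j` (the product of the `𝔮_j` is contained in `I`), so `⨅_(𝔮_j ≠ 𝔮) 𝔮_j ≤ vanishingIdeal Z = I ≤ 𝔮` and some `𝔮_j ≤ 𝔮`, `𝔮_j ≠ 𝔮`: contradiction to minimality. `J ⊆ I ≤ 𝔮` (`hJ`). Let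
`R = k[U] ⧸ 𝔮`, a domain, `K = FractionRing R`, `L = AlgebraicClosure K`, `c x` = the image of `X x`. Let `R'` be the local subring of `L`, the localisation of `R` at `𝔪 / 𝔮`; there is a valuation subring `A` of `L` which dominates it
(`LocalSubring.exists_le_valuationSubring`, Mathlib.RingTheory.Valuation.LocalSubring; or `ValuationSubring` and Zorn). `c x - c₀ x` is in the maximal ideal of `R'`, so it is a nonunit of `A`; `k ⊆ R' ⊆ A`.
-/

set_option autoImplicit false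

namespace Pool.Agent.Lib.MP_1e3e9c_agM

private theorem M4_val {P : Type} [CommRing P] (𝔮 𝔪 : Ideal P) (hq : 𝔮.IsPrime) (hm : 𝔪 ≠ ⊤)
    (hle : 𝔮 ≤ 𝔪) : ∃ (L : Type) (_ : Field L) (_ : IsAlgClosed L) (φ : P →+* L)
      (A : ValuationSubring L), RingHom.ker φ = 𝔮 ∧ (∀ p, φ p ∈ A) ∧ ∀ p ∈ 𝔪, φ p ∈ A.nonunits := by
  classical
  obtain ⟨φ, hφ⟩ : ∃ φ : P →+* AlgebraicClosure (FractionRing (P ⧸ 𝔮)),
      φ = (algebraMap (FractionRing (P ⧸ 𝔮)) (AlgebraicClosure (FractionRing (P ⧸ 𝔮)))).comp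
        ((algebraMap (P ⧸ 𝔮) (FractionRing (P ⧸ 𝔮))).comp (Ideal.Quotient.mk 𝔮)) := ⟨_, rfl⟩
  have hker : RingHom.ker φ = 𝔮 := by
    ext p
    rw [RingHom.mem_ker, hφ, RingHom.comp_apply, RingHom.comp_apply,
      map_eq_zero_iff _ (algebraMap (FractionRing (P ⧸ 𝔮))
        (AlgebraicClosure (FractionRing (P ⧸ 𝔮)))).injective,
      map_eq_zero_iff _ (IsFractionRing.injective (P ⧸ 𝔮) (FractionRing (P ⧸ 𝔮))),
      Ideal.Quotient.eq_zero_iff_mem]
  have hsur : Function.Surjective φ.rangeRestrict := φ.rangeRestrict_surjective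
  have htop : Ideal.map φ.rangeRestrict 𝔪 ≠ ⊤ := by
    intro h
    apply hm
    have h1 := Ideal.comap_map_of_surjective φ.rangeRestrict hsur 𝔪
    rw [h, Ideal.comap_top] at h1
    rw [eq_top_iff, h1]
    refine sup_le le_rfl (le_trans ?_ hle)
    intro p hp
    rw [Ideal.mem_comap, Ideal.mem_bot] at hp
    rw [← hker, RingHom.mem_ker]
    exact congrArg Subtype.val hp
  obtain ⟨A, hA, hI⟩ := Ideal.image_subset_nonunits_valuationSubring _ htop
  refine ⟨_, inferInstance, inferInstance, φ, A, hker, fun p => hA ⟨p, rfl⟩, fun p hp => hI ?_⟩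
  exact ⟨φ.rangeRestrict p, Ideal.mem_map_of_mem _ hp, rfl⟩

private theorem M4_min {k U : Type} [Field k] [Finite U] (Z : Set (U → k)) (c₀ : U → k)
    (h0 : ∀ q ∈ MvPolynomial.vanishingIdeal k Z, MvPolynomial.eval c₀ q = 0)
    (B : Set (MvPolynomial U k)) (hB : ∀ c ∈ Z, ∃ q ∈ B, MvPolynomial.eval c q ≠ 0) :
    ∃ 𝔮 : Ideal (MvPolynomial U k), 𝔮.IsPrime ∧ MvPolynomial.vanishingIdeal k Z ≤ 𝔮 ∧
      𝔮 ≤ RingHom.ker (MvPolynomial.eval c₀) ∧ ∃ q ∈ B, q ∉ 𝔮 := by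
  classical
  obtain ⟨I, hI⟩ : ∃ I, I = MvPolynomial.vanishingIdeal k Z := ⟨_, rfl⟩
  have hprime : ∀ c : U → k, (RingHom.ker (MvPolynomial.eval c)).IsPrime :=
    fun c => RingHom.ker_isPrime _
  have hI0 : I ≤ RingHom.ker (MvPolynomial.eval c₀) := by
    intro q hq
    rw [RingHom.mem_ker]
    rw [hI] at hq
    exact h0 q hq
  have := hprime c₀
  obtain ⟨𝔮, hqm, hq0⟩ := Ideal.exists_minimalPrimes_le hI0
  refine ⟨𝔮, hqm.1.1, hI ▸ hqm.1.2, hq0, ?_⟩
  by_contra hcon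
  push Not at hcon
  have hfin : I.minimalPrimes.Finite := Ideal.finite_minimalPrimes_of_isNoetherianRing _ I
  have hT : (hfin.toFinset.erase 𝔮).inf (fun 𝔭 => 𝔭) ≤ I := by
    intro q hq
    rw [hI, MvPolynomial.mem_vanishingIdeal_iff]
    intro c hc
    have := hprime c
    have hIc : I ≤ RingHom.ker (MvPolynomial.eval c) := by
      intro p hp
      rw [hI, MvPolynomial.mem_vanishingIdeal_iff] at hp
      have hp' := hp c hc
      rw [MvPolynomial.aeval_eq_eval] at hp'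
      rw [RingHom.mem_ker]
      exact hp'
    obtain ⟨𝔭, hpm, hpc⟩ := Ideal.exists_minimalPrimes_le hIc
    have hne : 𝔭 ≠ 𝔮 := by
      rintro rfl
      obtain ⟨b, hb, hbc⟩ := hB c hc
      exact hbc (RingHom.mem_ker.1 (hpc (hcon b hb)))
    have hle : (hfin.toFinset.erase 𝔮).inf (fun 𝔭 => 𝔭) ≤ 𝔭 :=
      Finset.inf_le (f := fun 𝔭 => 𝔭) (Finset.mem_erase.2 ⟨hne, hfin.mem_toFinset.2 hpm⟩)
    rw [MvPolynomial.aeval_eq_eval]
    exact RingHom.mem_ker.1 (hpc (hle hq))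
  obtain ⟨𝔭, hp, hple⟩ := (Ideal.IsPrime.inf_le' hqm.1.1).1 (hT.trans hqm.1.2)
  rw [Finset.mem_erase, Set.Finite.mem_toFinset] at hp
  exact hp.1 (le_antisymm hple (hqm.2 hp.2.1 hple))

theorem exists_dom {k U : Type} [Field k] [Finite U] (Z : Set (U → k)) (c₀ : U → k)
    (h0 : ∀ q ∈ MvPolynomial.vanishingIdeal k Z, MvPolynomial.eval c₀ q = 0)
    (J B : Set (MvPolynomial U k)) (hJ : ∀ c ∈ Z, ∀ q ∈ J, MvPolynomial.eval c q = 0)
    (hB : ∀ c ∈ Z, ∃ q ∈ B, MvPolynomial.eval c q ≠ 0) :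
    ∃ (L : Type) (_ : Field L) (_ : IsAlgClosed L) (_ : Algebra k L) (A : ValuationSubring L)
      (c : U → L), (∀ a : k, algebraMap k L a ∈ A) ∧
      (∀ q ∈ J, MvPolynomial.aeval c q = 0) ∧ (∃ q ∈ B, MvPolynomial.aeval c q ≠ 0) ∧
      ∀ x, c x - algebraMap k L (c₀ x) ∈ A.nonunits := by
  classical
  obtain ⟨𝔮, hqp, hIq, hq0, b, hb, hbq⟩ := M4_min Z c₀ h0 B hB
  have hm : RingHom.ker (MvPolynomial.eval c₀) ≠ ⊤ := by
    have : (RingHom.ker (MvPolynomial.eval c₀)).IsPrime := RingHom.ker_isPrime _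
    exact Ideal.IsPrime.ne_top'
  obtain ⟨L, hL, hLc, φ, A, hker, hφA, hφm⟩ :=
    M4_val 𝔮 (RingHom.ker (MvPolynomial.eval c₀)) hqp hm hq0
  let := hL
  let : Algebra k L := (φ.comp MvPolynomial.C).toAlgebra
  have halg : ∀ a : k, algebraMap k L a = φ (MvPolynomial.C a) := fun a => rfl
  have haev : ∀ q : MvPolynomial U k,
      MvPolynomial.aeval (fun x => φ (MvPolynomial.X x)) q = φ q := by
    intro q
    have h1 : ((MvPolynomial.aeval (fun x => φ (MvPolynomial.X x)) :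
        MvPolynomial U k →ₐ[k] L) : MvPolynomial U k →+* L) = φ := by
      refine MvPolynomial.ringHom_ext (fun a => ?_) fun x => ?_
      · exact MvPolynomial.aeval_C _ a
      · exact MvPolynomial.aeval_X _ x
    exact RingHom.congr_fun h1 q
  refine ⟨L, hL, hLc, inferInstance, A, fun x => φ (MvPolynomial.X x), fun a => ?_,
    fun q hq => ?_, ⟨b, hb, ?_⟩, fun x => ?_⟩
  · rw [halg]
    exact hφA _
  · rw [haev, ← RingHom.mem_ker, hker]
    refine hIq ?_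
    rw [MvPolynomial.mem_vanishingIdeal_iff]
    intro c hc
    rw [MvPolynomial.aeval_eq_eval]
    exact hJ c hc q hq
  · rw [haev]
    intro h
    exact hbq (hker ▸ RingHom.mem_ker.2 h)
  · have h1 : φ (MvPolynomial.X x) - algebraMap k L (c₀ x) =
        φ (MvPolynomial.X x - MvPolynomial.C (c₀ x)) := by
      rw [halg, map_sub]
    show φ (MvPolynomial.X x) - algebraMap k L (c₀ x) ∈ A.nonunits
    rw [h1]
    refine hφm _ ?_
    rw [RingHom.mem_ker, map_sub, MvPolynomial.eval_X, MvPolynomial.eval_C, sub_self]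

end Pool.Agent.Lib.MP_1e3e9c_agM
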