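import Mathlib

/-!
# MP_1e3e9c_ag, project M, leaf M5: lifting a root to the valuation ring (MATHLIB ONLY)

PROOF. Replace `F(X)` by `F(X + b)` (the coefficients stay in `A`, some of them is a unit: the shift is an automorphism of `A[X]`, or of the reduction): we may assume `b = 0`, so `F(0)` is a nonunit. `F ≠ 0` splits over `L`: `F = a * ∏ (X - τ_j)` (`IsAlgClosed.splits`, multiset of roots). Suppose no `τ_j` is a nonunit of `A`, so
`τ_j⁻¹ ∈ A` for all `j` (`A` a valuation ring: `A.mem_or_inv_mem`; `τ_j ≠ 0`, and `τ_j ∈ A` is a unit or `τ_j ∉ A`). Then `F = F(0) * ∏ (1 - τ_j⁻¹ X)` and all coefficients of `F` are in `F(0) * A`, nonunits: contradiction to `hu`. (Shift: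
it may be easier to do the argument with the powers of `X - C b`: `Polynomial.taylor`.)
-/

set_option autoImplicit false

namespace Pool.Agent.Lib.MP_1e3e9c_agM

private theorem M5_prod {L : Type} [Field L] (A : ValuationSubring L) (s : Multiset L)
    (hs : ∀ σ ∈ s, σ⁻¹ ∈ A) (j : ℕ) :
    ((s.map fun σ => (1 - Polynomial.C σ⁻¹ * Polynomial.X : Polynomial L)).prod).coeff j ∈ A := by
  induction s using Multiset.induction_on generalizing j with
  | empty =>
    rw [Multiset.map_zero, Multiset.prod_zero, Polynomial.coeff_one]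
    split_ifs
    · exact A.one_mem
    · exact A.zero_mem
  | cons a s ih =>
    have hs' : ∀ σ ∈ s, σ⁻¹ ∈ A := fun σ h => hs σ (Multiset.mem_cons_of_mem h)
    rw [Multiset.map_cons, Multiset.prod_cons, sub_mul, one_mul, mul_assoc, Polynomial.coeff_sub,
      Polynomial.coeff_C_mul]
    refine sub_mem (ih hs' j) (mul_mem (hs a (Multiset.mem_cons_self a s)) ?_)
    cases j with
    | zero =>
      rw [Polynomial.mul_coeff_zero, Polynomial.coeff_X_zero, zero_mul]
      exact A.zero_mem
    | succ j =>
      rw [Polynomial.coeff_X_mul]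
      exact ih hs' j

private theorem M5_shift {L : Type} [Field L] (A : ValuationSubring L) (G : Polynomial L)
    (hG : ∀ j, G.coeff j ∈ A.nonunits) {b : L} (hb : b ∈ A) (j : ℕ) :
    (Polynomial.taylor b G).coeff j ∈ A.nonunits := by
  rw [Polynomial.taylor_coeff, Polynomial.eval_eq_sum_range, A.mem_nonunits_iff]
  refine Valuation.map_sum_lt _ one_ne_zero fun i _ => ?_
  rw [Polynomial.hasseDeriv_coeff, map_mul, map_mul]
  have h1 : A.valuation (G.coeff (i + j)) < 1 := A.mem_nonunits_iff.mp (hG _)
  have h2 : A.valuation (((i + j).choose j : ℕ) : L) ≤ 1 :=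
    (A.valuation_le_one_iff _).mpr (natCast_mem A _)
  have h3 : A.valuation (b ^ i) ≤ 1 := (A.valuation_le_one_iff _).mpr (pow_mem hb i)
  calc A.valuation (((i + j).choose j : ℕ) : L) * A.valuation (G.coeff (i + j)) *
        A.valuation (b ^ i) ≤ 1 * A.valuation (G.coeff (i + j)) * 1 := by gcongr
    _ = A.valuation (G.coeff (i + j)) := by rw [one_mul, mul_one]
    _ < 1 := h1

theorem lift_root {L : Type} [Field L] [IsAlgClosed L] (A : ValuationSubring L) (F : Polynomial L)
    (hF : ∀ j, F.coeff j ∈ A) (hu : ∃ j, F.coeff j ∉ A.nonunits) (b : L) (hb : b ∈ A)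
    (h : F.eval b ∈ A.nonunits) : ∃ τ : L, F.eval τ = 0 ∧ τ - b ∈ A.nonunits := by
  by_contra hcon
  have hcon' : ∀ τ : L, F.eval τ = 0 → τ - b ∉ A.nonunits := fun τ h1 h2 => hcon ⟨τ, h1, h2⟩
  obtain ⟨j0, hj0⟩ := hu
  apply hj0
  have hF0 : F = Polynomial.taylor (-b) (Polynomial.taylor b F) := by
    rw [Polynomial.taylor_taylor, neg_add_cancel, Polynomial.taylor_zero]
  rw [hF0]
  refine M5_shift A _ (fun j => ?_) (neg_mem hb) j0
  have hroot : ∀ σ ∈ (Polynomial.taylor b F).roots, σ ≠ 0 ∧ σ⁻¹ ∈ A := by
    intro σ hσ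
    have h1 : (Polynomial.taylor b F).eval σ = 0 := (Polynomial.mem_roots'.mp hσ).2
    rw [Polynomial.taylor_eval] at h1
    have h2 := hcon' _ h1
    rw [add_sub_cancel_right, A.mem_nonunits_iff_or] at h2
    push Not at h2
    exact h2
  have h0 : (Polynomial.taylor b F).coeff 0 ∈ A.nonunits := by
    rw [Polynomial.taylor_coeff_zero]
    exact h
  generalize Polynomial.taylor b F = G at hroot h0 ⊢
  have hs : G = Polynomial.C (G.leadingCoeff) * (G.roots.map fun σ => Polynomial.X - Polynomial.C σ).prod :=
    (IsAlgClosed.splits G).eq_prod_roots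
  have key : ∀ s : Multiset L, (∀ σ ∈ s, σ ≠ 0) →
      (s.map fun σ => (Polynomial.X - Polynomial.C σ : Polynomial L)).prod =
        Polynomial.C ((s.map fun σ => (Polynomial.X - Polynomial.C σ : Polynomial L)).prod.coeff 0) *
          (s.map fun σ => (1 - Polynomial.C σ⁻¹ * Polynomial.X : Polynomial L)).prod := by
    intro s
    induction s using Multiset.induction_on with
    | empty => intro _; simp
    | cons a s ih =>
      intro hs
      have ha : a ≠ 0 := hs a (Multiset.mem_cons_self a s)
      rw [Multiset.map_cons, Multiset.prod_cons, Multiset.map_cons, Multiset.prod_cons,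
        Polynomial.mul_coeff_zero, Polynomial.C_mul]
      have h1 := ih fun σ h => hs σ (Multiset.mem_cons_of_mem h)
      have h2 : (Polynomial.X - Polynomial.C a : Polynomial L) =
          Polynomial.C ((Polynomial.X - Polynomial.C a : Polynomial L).coeff 0) *
            (1 - Polynomial.C a⁻¹ * Polynomial.X) := by
        rw [Polynomial.coeff_sub, Polynomial.coeff_X_zero, Polynomial.coeff_C_zero, zero_sub,
          mul_sub, mul_one, ← mul_assoc, ← Polynomial.C_mul, neg_mul, mul_inv_cancel₀ ha,
          Polynomial.C_neg, Polynomial.C_neg, Polynomial.C_1]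
        ring
      calc (Polynomial.X - Polynomial.C a) *
            (s.map fun σ => (Polynomial.X - Polynomial.C σ : Polynomial L)).prod
          = (Polynomial.C ((Polynomial.X - Polynomial.C a : Polynomial L).coeff 0) *
              (1 - Polynomial.C a⁻¹ * Polynomial.X)) *
            (Polynomial.C ((s.map fun σ => (Polynomial.X - Polynomial.C σ :
              Polynomial L)).prod.coeff 0) *
              (s.map fun σ => (1 - Polynomial.C σ⁻¹ * Polynomial.X : Polynomial L)).prod) := by
            rw [← h1, ← h2]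
        _ = _ := by ring
  have h1 := key G.roots fun σ hσ => (hroot σ hσ).1
  have h2 : G = Polynomial.C (G.coeff 0) *
      (G.roots.map fun σ => (1 - Polynomial.C σ⁻¹ * Polynomial.X : Polynomial L)).prod := by
    have h3 : G.coeff 0 = G.leadingCoeff *
        (G.roots.map fun σ => (Polynomial.X - Polynomial.C σ : Polynomial L)).prod.coeff 0 := by
      conv_lhs => rw [hs]
      rw [Polynomial.coeff_C_mul]
    rw [h3, Polynomial.C_mul, mul_assoc, ← h1]
    exact hs
  rw [h2, Polynomial.coeff_C_mul, A.mem_nonunits_iff, map_mul]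
  have h4 : A.valuation (G.coeff 0) < 1 := A.mem_nonunits_iff.mp h0
  have h5 := (A.valuation_le_one_iff _).mpr (M5_prod A G.roots (fun σ hσ => (hroot σ hσ).2) j)
  exact mul_lt_one_of_lt_of_le h4 h5

end Pool.Agent.Lib.MP_1e3e9c_agM
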