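import Mathlib

/-!
# MP_1e3e9c_ag, project M, leaf M6: the first break (MATHLIB ONLY)

PROOF. Let `B` be the set of the pairs `(i, l)`, `l < w i * e`, with `(f i).coeff l ≠ 0` (finite, not empty by `hne`). For a pair in `B` choose `ρ` with `ρ^(w i * e - l) = (f i).coeff l` (`IsAlgClosed.exists_pow_nat_eq`, `w i * e - l > 0`); `ρ` is a nonunit of `A` (`hm`: if `ρ` were not a nonunit, `ρ⁻¹ ∈ A`, and
then the power would not be a nonunit). The divisibility in the valuation ring `A` is total: there is a pair in `B` whose `ρ =: θ` satisfies `ρ' / θ ∈ A` for the `ρ'` of all the pairs in `B` (finite set, `A.mem_or_inv_mem`;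
`Finset.exists_max_image` for `A.valuation`). `θ ≠ 0`. Let `g i = (f i)(θ X) / θ^(w i * e)`, `coeff l (g i) = coeff l (f i) * θ^l / θ^(w i * e)`. For `l < w i * e` and a pair in `B`: it is
`(ρ_(i,l) / θ)^(w i * e - l) ∈ A`, equal to `1` for the chosen pair; for `l = w i * e` it is `coeff l (f i)`; for `l > w i * e` it is `coeff l (f i) * θ^(l - w i * e)`, a nonunit.
-/

set_option autoImplicit false

namespace Pool.Agent.Lib.MP_1e3e9c_agM

theorem zoom {L : Type} [Field L] [IsAlgClosed L] (A : ValuationSubring L) {n e : ℕ}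
    {w : Fin (n + 1) → ℕ} (f : Fin (n + 1) → Polynomial L) (hA : ∀ i l, (f i).coeff l ∈ A)
    (hm : ∀ i l, l < w i * e → (f i).coeff l ∈ A.nonunits)
    (hne : ∃ i l, l < w i * e ∧ (f i).coeff l ≠ 0) :
    ∃ (θ : L) (g : Fin (n + 1) → Polynomial L), θ ≠ 0 ∧
      (∀ i, Polynomial.C (θ ^ (w i * e)) * g i = (f i).comp (Polynomial.C θ * Polynomial.X)) ∧
      (∀ i l, (g i).coeff l ∈ A) ∧ (∀ i l, w i * e < l → (g i).coeff l ∈ A.nonunits) ∧
      (∀ i, (g i).coeff (w i * e) = (f i).coeff (w i * e)) ∧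
      ∃ i l, l < w i * e ∧ (g i).coeff l ∉ A.nonunits := by
  classical
  have hr : ∀ (i : Fin (n + 1)) (l : ℕ), ∃ ρ : L, l < w i * e → ρ ^ (w i * e - l) = (f i).coeff l := by
    intro i l
    by_cases h : l < w i * e
    · obtain ⟨ρ, hρ⟩ := IsAlgClosed.exists_pow_nat_eq ((f i).coeff l) (Nat.sub_pos_of_lt h)
      exact ⟨ρ, fun _ => hρ⟩
    · exact ⟨0, fun h' => absurd h' h⟩
  choose r hr using hr
  set B : Finset (Σ _ : Fin (n + 1), ℕ) := (Finset.univ : Finset (Fin (n + 1))).sigma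
    (fun i => (Finset.range (w i * e)).filter (fun l => (f i).coeff l ≠ 0)) with hB
  have hBm : ∀ (i : Fin (n + 1)) (l : ℕ), (⟨i, l⟩ : Σ _ : Fin (n + 1), ℕ) ∈ B ↔ l < w i * e ∧ (f i).coeff l ≠ 0 := by
    intro i l
    rw [hB, Finset.mem_sigma, Finset.mem_filter, Finset.mem_range]
    simp
  obtain ⟨i₁, l₁, hl₁, hc₁⟩ := hne
  obtain ⟨⟨i₀, l₀⟩, hmem, hmax⟩ := Finset.exists_max_image B (fun x => A.valuation (r x.1 x.2))
    ⟨⟨i₁, l₁⟩, (hBm i₁ l₁).2 ⟨hl₁, hc₁⟩⟩
  obtain ⟨hl₀, hc₀⟩ := (hBm i₀ l₀).1 hmem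
  obtain ⟨θ, hθ⟩ : ∃ θ, θ = r i₀ l₀ := ⟨_, rfl⟩
  have hmax' : ∀ i l, l < w i * e → (f i).coeff l ≠ 0 → A.valuation (r i l) ≤ A.valuation θ := by
    intro i l hl hc
    rw [hθ]
    exact hmax ⟨i, l⟩ ((hBm i l).2 ⟨hl, hc⟩)
  have hθe : θ ^ (w i₀ * e - l₀) = (f i₀).coeff l₀ := by
    rw [hθ]
    exact hr i₀ l₀ hl₀
  have hk₀ : w i₀ * e - l₀ ≠ 0 := (Nat.sub_pos_of_lt hl₀).ne'
  have hθ0 : θ ≠ 0 := by
    intro h
    apply hc₀
    rw [← hθe, h, zero_pow hk₀]
  have hvθ : A.valuation θ < 1 := by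
    by_contra h
    rw [not_lt] at h
    have h1 := (A.mem_nonunits_iff).1 (hm i₀ l₀ hl₀)
    rw [← hθe, map_pow] at h1
    exact absurd h1 (not_lt.2 (one_le_pow₀ h))
  have hco : ∀ i l, (Polynomial.C ((θ ^ (w i * e))⁻¹) * (f i).comp (Polynomial.C θ * Polynomial.X)).coeff l =
      (θ ^ (w i * e))⁻¹ * ((f i).coeff l * θ ^ l) := by
    intro i l
    rw [Polynomial.coeff_C_mul, Polynomial.comp_C_mul_X_coeff]
  have hlow : ∀ i l, l < w i * e → (θ ^ (w i * e))⁻¹ * ((f i).coeff l * θ ^ l) =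
      (r i l / θ) ^ (w i * e - l) := by
    intro i l hl
    rw [← hr i l hl, div_pow]
    have h1 : θ ^ (w i * e) = θ ^ (w i * e - l) * θ ^ l := by
      rw [← pow_add, Nat.sub_add_cancel hl.le]
    have h2 : θ ^ (w i * e - l) ≠ 0 := pow_ne_zero _ hθ0
    have h3 : θ ^ l ≠ 0 := pow_ne_zero _ hθ0
    rw [h1]
    field_simp
  refine ⟨θ, fun i => Polynomial.C ((θ ^ (w i * e))⁻¹) * (f i).comp (Polynomial.C θ * Polynomial.X), hθ0, ?_, ?_, ?_,
    ?_, i₀, l₀, hl₀, ?_⟩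
  · intro i
    rw [← mul_assoc, ← Polynomial.C_mul, mul_inv_cancel₀ (pow_ne_zero _ hθ0), Polynomial.C_1, one_mul]
  · intro i l
    rw [hco]
    rcases lt_trichotomy l (w i * e) with h | h | h
    · by_cases hc : (f i).coeff l = 0
      · rw [hc, zero_mul, mul_zero]
        exact A.zero_mem
      · rw [hlow i l h]
        have h5 : r i l / θ ∈ A := by
          rw [← A.valuation_le_one_iff, map_div₀]
          exact div_le_one_of_le₀ (hmax' i l h hc) zero_le
        exact A.toSubring.pow_mem h5 _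
    · rw [h, mul_comm ((f i).coeff (w i * e)), ← mul_assoc, inv_mul_cancel₀ (pow_ne_zero _ hθ0), one_mul]
      exact hA i _
    · have h1 : (θ ^ (w i * e))⁻¹ * ((f i).coeff l * θ ^ l) = (f i).coeff l * θ ^ (l - w i * e) := by
        have h2 : θ ^ l = θ ^ (l - w i * e) * θ ^ (w i * e) := by
          rw [← pow_add, Nat.sub_add_cancel h.le]
        have h3 : θ ^ (w i * e) ≠ 0 := pow_ne_zero _ hθ0
        rw [h2]
        field_simp
      rw [h1]
      have h5 : θ ∈ A := by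
        rw [← A.valuation_le_one_iff]
        exact hvθ.le
      exact A.mul_mem _ _ (hA i l) (A.toSubring.pow_mem h5 _)
  · intro i l h
    rw [hco]
    have h1 : (θ ^ (w i * e))⁻¹ * ((f i).coeff l * θ ^ l) = (f i).coeff l * θ ^ (l - w i * e) := by
      have h2 : θ ^ l = θ ^ (l - w i * e) * θ ^ (w i * e) := by
        rw [← pow_add, Nat.sub_add_cancel h.le]
      have h3 : θ ^ (w i * e) ≠ 0 := pow_ne_zero _ hθ0
      rw [h2]
      field_simp
    rw [h1, A.mem_nonunits_iff, map_mul, map_pow]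
    have h4 : A.valuation ((f i).coeff l) ≤ 1 := (A.valuation_le_one_iff _).2 (hA i l)
    have h5 : A.valuation θ ^ (l - w i * e) < 1 := pow_lt_one₀ zero_le hvθ (Nat.sub_pos_of_lt h).ne'
    exact mul_lt_one_of_nonneg_of_lt_one_right h4 zero_le h5
  · intro i
    rw [hco, mul_comm ((f i).coeff (w i * e)), ← mul_assoc, inv_mul_cancel₀ (pow_ne_zero _ hθ0), one_mul]
  · rw [hco, hlow i₀ l₀ hl₀, ← hθ, div_self hθ0, one_pow, A.mem_nonunits_iff, map_one]
    exact lt_irrefl 1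

end Pool.Agent.Lib.MP_1e3e9c_agM
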