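import Mathlib
import Pool.Agent.Lib.MP_1e3e9c_agM.M1
import Pool.Agent.Lib.MP_1e3e9c_agM.M6

/-!
# MP_1e3e9c_ag, project M, leaf M7: the centre of a constant reduction

PROOF. NOTATION: `κ = IsLocalRing.ResidueField A`, a `k`-algebra; `red : A → κ`; for a polynomial `F` over `L` with coefficients in `A` let `red F` be its image in `κ[X]`. Induction on `e` (for all `f`, `h`). `red (f i) = C (v i) * h ^ w i`, `h ≠ 0`, and `X^e` divides `h` exactly.
`e = 0`: `h(0) ≠ 0`, so for `v i ≠ 0` the reduction of `(f i).coeff 0` is `v i * h(0)^(w i) ≠ 0`, so `(f i).coeff 0 ≠ 0`. `e > 0`: the coefficients of `f i` at `l < w i * e` are nonunits (`X^(w i e) ∣ red (f i)`). If they are all `0`, then `(f i).coeff 0 = 0` for all `i`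
(`0 < w i * e`): the first alternative. Otherwise `zoom` (M6) gives `θ, g`. `g` has values in the zero set of `S` (`P` weighted homogeneous of weight `m`: `θ^(e m) * aeval g P = aeval (f (θ X)) P = 0`). Let `ḡ i = red (g i)`: `natDegree ≤ w i * e`, `coeff (w i e) = red (coeff (w i e) (f i)) = v i * ε^(w i)`, where
`ε ≠ 0` is the coefficient of `X^e` in `h`. The curve `r i = C (ε^(w i))⁻¹ * reflect (w i * e) (ḡ i)` over `κ` has degree `≤ w i * e`, `r(0) = v`, and values in the zero set of `S` (weighted homogeneous). `e < D`, so by `Mn κ` `Bi` holds for it, and by `orbit_poly` (M1; `Gc w (bc κ v)` from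
`Gp κ` at the point `bc κ v`, which is in the zero set of `S` because it is `r(0)`) `r i = C (v i) * h₁ ^ w i`, `h₁(0) = 1`; `natDegree h₁ ≤ e` (`v i ≠ 0` for some `i`). So `ḡ i = C (v i) * h₂ ^ w i` with `h₂ = C ε * reflect e h₁`, `h₂ ≠ 0`. `ord_0 h₂ = e' < e`: `e' ≤ e` because `natDegree h₂ ≤ e`, and if `e' = e`, then
`ḡ i` has no terms at `l < w i * e`, against the last statement of `zoom`. Apply the induction hypothesis to `g`, `e'`: `(g i).coeff 0 = θ^(- w i e) (f i).coeff 0`.
-/

set_option autoImplicit false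

namespace Pool.Agent.Lib.MP_1e3e9c_agM

open Pool.Agent.Lib.MP_1e3e9c_agR

private theorem M7_scale {k R : Type} [Field k] [CommRing R] [Algebra k R] {n : ℕ}
    {w : Fin (n + 1) → ℕ} {P : MvPolynomial (Fin (n + 1)) k} {m : ℕ}
    (hP : P.IsWeightedHomogeneous w m) (c : R) (g : Fin (n + 1) → R) :
    MvPolynomial.aeval (fun i => c ^ w i * g i) P = c ^ m * MvPolynomial.aeval g P := by
  rw [MvPolynomial.aeval_def, MvPolynomial.aeval_def, MvPolynomial.eval₂_eq', MvPolynomial.eval₂_eq',
    Finset.mul_sum]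
  refine Finset.sum_congr rfl fun d hd => ?_
  have h1 : ∑ i, w i * d i = m := by
    have h2 := hP (MvPolynomial.mem_support_iff.mp hd)
    rw [Finsupp.weight_apply, Finsupp.sum_fintype _ _ (fun i => by rw [zero_smul])] at h2
    rw [← h2]
    exact Finset.sum_congr rfl fun i _ => by rw [smul_eq_mul, mul_comm]
  have h3 : ∏ i, (c ^ w i * g i) ^ d i = c ^ m * ∏ i, g i ^ d i := by
    rw [← h1, ← Finset.prod_pow_eq_pow_sum, ← Finset.prod_mul_distrib]
    exact Finset.prod_congr rfl fun i _ => by rw [mul_pow, pow_mul]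
  rw [h3]
  ring

private theorem M7_map {k A B : Type} [Field k] [CommRing A] [CommRing B] [Algebra k A] [Algebra k B]
    (φ : A →ₐ[k] B) {n : ℕ} (f : Fin (n + 1) → Polynomial A) (P : MvPolynomial (Fin (n + 1)) k) :
    (MvPolynomial.aeval f P).map (φ : A →+* B) =
      MvPolynomial.aeval (fun i => (f i).map (φ : A →+* B)) P :=
  MvPolynomial.comp_aeval_apply f (Polynomial.mapAlgHom φ) P

private theorem M7_comp {k R : Type} [Field k] [CommRing R] [Algebra k R] {n : ℕ}
    (f : Fin (n + 1) → Polynomial R) (q : Polynomial R) (P : MvPolynomial (Fin (n + 1)) k) :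
    (MvPolynomial.aeval f P).comp q = MvPolynomial.aeval (fun i => (f i).comp q) P :=
  MvPolynomial.comp_aeval_apply f
    ((Polynomial.aeval q : Polynomial R →ₐ[R] Polynomial R).restrictScalars k) P

private theorem M7_refl {k K : Type} [Field k] [Field K] [Algebra k K] {n : ℕ}
    {w : Fin (n + 1) → ℕ} {P : MvPolynomial (Fin (n + 1)) k} {m : ℕ}
    (hP : P.IsWeightedHomogeneous w m) (e : ℕ) (c : K) (a : Fin (n + 1) → Polynomial K)
    (ha : ∀ i, (a i).natDegree ≤ w i * e) (h0 : MvPolynomial.aeval a P = 0) :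
    MvPolynomial.aeval (fun i => Polynomial.C (c ^ w i) * (a i).reflect (w i * e)) P = 0 := by
  obtain ⟨T, hT⟩ : ∃ T : FractionRing (Polynomial K),
      T = algebraMap (Polynomial K) (FractionRing (Polynomial K)) Polynomial.X := ⟨_, rfl⟩
  have hT0 : T ≠ 0 := by
    rw [hT]
    exact (map_ne_zero_iff _ (IsFractionRing.injective (Polynomial K) (FractionRing (Polynomial K)))).mpr
      Polynomial.X_ne_zero
  have hinj := IsFractionRing.injective (Polynomial K) (FractionRing (Polynomial K))
  have hC : ∀ x : K, algebraMap (Polynomial K) (FractionRing (Polynomial K)) (Polynomial.C x) =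
      algebraMap K (FractionRing (Polynomial K)) x := fun x =>
    (IsScalarTower.algebraMap_apply K (Polynomial K) (FractionRing (Polynomial K)) x).symm
  have key : ∀ i, algebraMap (Polynomial K) (FractionRing (Polynomial K))
      (Polynomial.C (c ^ w i) * (a i).reflect (w i * e)) =
      (algebraMap K (FractionRing (Polynomial K)) c * T ^ e) ^ w i * Polynomial.aeval (T⁻¹) (a i) := by
    intro i
    have h1 : Polynomial.aeval T ((a i).reflect (w i * e)) =
        algebraMap (Polynomial K) (FractionRing (Polynomial K)) ((a i).reflect (w i * e)) := by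
      rw [hT, Polynomial.aeval_algebraMap_apply, Polynomial.aeval_X_left_apply]
    have h2 : Polynomial.aeval T ((a i).reflect (w i * e)) = T ^ (w i * e) * Polynomial.aeval (T⁻¹) (a i) := by
      let _ : Invertible (T⁻¹) := invertibleOfNonzero (inv_ne_zero hT0)
      have h3 := Polynomial.eval₂_reflect_mul_pow (algebraMap K (FractionRing (Polynomial K))) (T⁻¹) (w i * e)
        (a i) (ha i)
      rw [invOf_eq_inv, inv_inv] at h3
      rw [Polynomial.aeval_def, Polynomial.aeval_def, ← h3, mul_left_comm, ← mul_pow,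
        mul_inv_cancel₀ hT0, one_pow, mul_one]
    rw [map_mul, ← h1, h2, mul_pow, ← pow_mul, mul_comm e (w i), hC, map_pow]
    ring
  apply hinj
  rw [map_zero]
  have h1 := MvPolynomial.comp_aeval_apply (fun i => Polynomial.C (c ^ w i) * (a i).reflect (w i * e))
    (IsScalarTower.toAlgHom k (Polynomial K) (FractionRing (Polynomial K))) P
  have h2 := MvPolynomial.comp_aeval_apply a
    ((Polynomial.aeval (T⁻¹) : Polynomial K →ₐ[K] FractionRing (Polynomial K)).restrictScalars k) P
  rw [h0, map_zero] at h2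
  refine h1.trans ?_
  have h3 : (fun i => (IsScalarTower.toAlgHom k (Polynomial K) (FractionRing (Polynomial K)))
      (Polynomial.C (c ^ w i) * (a i).reflect (w i * e))) =
      fun i => (algebraMap K (FractionRing (Polynomial K)) c * T ^ e) ^ w i * Polynomial.aeval (T⁻¹) (a i) :=
    funext key
  rw [h3, M7_scale hP]
  have h4 : MvPolynomial.aeval (fun i => Polynomial.aeval (T⁻¹) (a i)) P = 0 := h2.symm
  rw [h4, mul_zero]

private theorem M7_pow {K : Type} [Field K] {e : ℕ} {f : Polynomial K} (hf : f.natDegree ≤ e) (w : ℕ) :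
    (f ^ w).reflect (w * e) = (f.reflect e) ^ w := by
  induction w with
  | zero => rw [pow_zero, pow_zero, zero_mul, Polynomial.reflect_one, pow_zero]
  | succ w ih =>
    rw [Nat.succ_mul, pow_succ, pow_succ, Polynomial.reflect_mul _ _ (Polynomial.natDegree_pow_le_of_le w hf) hf, ih]

private theorem M7_coeff {K : Type} [Field K] {h h' : Polynomial K} {e : ℕ}
    (hh : h = Polynomial.X ^ e * h') (c : K) (w : ℕ) :
    (∀ l, l < w * e → (Polynomial.C c * h ^ w).coeff l = 0) ∧
      (Polynomial.C c * h ^ w).coeff (w * e) = c * h'.coeff 0 ^ w := by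
  have h1 : h ^ w = Polynomial.X ^ (w * e) * h' ^ w := by
    rw [hh, mul_pow, ← pow_mul, mul_comm e w]
  refine ⟨fun l hl => ?_, ?_⟩
  · rw [h1, Polynomial.coeff_C_mul, Polynomial.X_pow_dvd_iff.mp (Dvd.intro _ rfl) l hl, mul_zero]
  · have h2 := Polynomial.coeff_X_pow_mul (h' ^ w) (w * e) 0
    rw [zero_add] at h2
    rw [h1, Polynomial.coeff_C_mul, h2, Polynomial.coeff_zero_eq_eval_zero, Polynomial.eval_pow,
      ← Polynomial.coeff_zero_eq_eval_zero]

theorem centre {k L : Type} [Field k] [Field L] [IsAlgClosed L] [Algebra k L]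
    (A : ValuationSubring L) [Algebra k A] [IsScalarTower k A L] {n D : ℕ}
    {w : Fin (n + 1) → ℕ} (hw : ∀ i, 0 < w i) {S : Set (MvPolynomial (Fin (n + 1)) k)}
    (hS : ∀ P ∈ S, ∃ m, P.IsWeightedHomogeneous w m) {v : Fin (n + 1) → k} (hv : v ≠ 0)
    (hM : Mn (IsLocalRing.ResidueField A) w S D v) (hG : Gp (IsLocalRing.ResidueField A) w S)
    (e : ℕ) (he : e < D) (f : Fin (n + 1) → Polynomial A)
    (hf : ∀ P ∈ S, MvPolynomial.aeval f P = 0) (h : Polynomial (IsLocalRing.ResidueField A))
    (hr : ∀ i, (f i).map (IsLocalRing.residue A) =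
      Polynomial.C (bc (IsLocalRing.ResidueField A) v i) * h ^ w i)
    (hh : ∃ h' : Polynomial (IsLocalRing.ResidueField A),
      h = Polynomial.X ^ e * h' ∧ h'.coeff 0 ≠ 0) :
    (∀ i, (f i).coeff 0 = 0) ∨ ∀ i, v i ≠ 0 → (f i).coeff 0 ≠ 0 := by
  induction e using Nat.strong_induction_on generalizing f h with
  | _ e ih =>
  obtain ⟨h', hh1, hh2⟩ := hh
  have hbi : ∀ i, bc (IsLocalRing.ResidueField A) v i ≠ 0 ↔ v i ≠ 0 := fun i =>
    (map_ne_zero_iff (algebraMap k (IsLocalRing.ResidueField A))
      (algebraMap k (IsLocalRing.ResidueField A)).injective)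
  have hcoef : ∀ i l, IsLocalRing.residue A ((f i).coeff l) =
      (Polynomial.C (bc (IsLocalRing.ResidueField A) v i) * h ^ w i).coeff l := by
    intro i l
    rw [← hr i, Polynomial.coeff_map]
  rcases Nat.eq_zero_or_pos e with rfl | hepos
  · right
    intro i hi h0
    have h1 := hcoef i 0
    have h2 := (M7_coeff hh1 (bc (IsLocalRing.ResidueField A) v i) (w i)).2
    rw [mul_zero] at h2
    rw [h0, map_zero, h2] at h1
    exact (mul_ne_zero ((hbi i).mpr hi) (pow_ne_zero _ hh2)) h1.symm
  -- the polynomials over `L`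
  obtain ⟨F, hF⟩ : ∃ F : Fin (n + 1) → Polynomial L, F = fun i => (f i).map (algebraMap A L) := ⟨_, rfl⟩
  have hFc : ∀ i l, (F i).coeff l = ((f i).coeff l : L) := by
    intro i l
    rw [hF]
    simp only [Polynomial.coeff_map]
    rfl
  have hnu : ∀ a : A, (a : L) ∈ A.nonunits ↔ IsLocalRing.residue A a = 0 := fun a => by
    rw [ValuationSubring.coe_mem_nonunits_iff, IsLocalRing.residue_eq_zero_iff]
  by_cases hne : ∃ i l, l < w i * e ∧ (F i).coeff l ≠ 0
  · have hA : ∀ i l, (F i).coeff l ∈ A := fun i l => by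
      rw [hFc]
      exact SetLike.coe_mem _
    have hm : ∀ i l, l < w i * e → (F i).coeff l ∈ A.nonunits := by
      intro i l hl
      rw [hFc, hnu, hcoef]
      exact (M7_coeff hh1 _ (w i)).1 l hl
    obtain ⟨θ, g, hθ, hg1, hg2, hg3, hg4, i₀, l₀, hl₀, hg5⟩ := zoom A F hA hm hne
    have hlift : ∀ i, ∃ G : Polynomial A, G.map (algebraMap A L) = g i := by
      intro i
      have h1 : g i ∈ Polynomial.lifts (algebraMap A L) := by
        rw [Polynomial.lifts_iff_coeff_lifts]
        intro l
        exact ⟨⟨(g i).coeff l, hg2 i l⟩, rfl⟩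
      exact (Polynomial.mem_lifts _).mp h1
    choose G hG1 using hlift
    have hGc : ∀ i l, (g i).coeff l = ((G i).coeff l : L) := by
      intro i l
      rw [← hG1 i, Polynomial.coeff_map]
      rfl
    have hAL : Function.Injective (algebraMap A L) := Subtype.val_injective
    -- the values of `G`
    have hGS : ∀ P ∈ S, MvPolynomial.aeval G P = 0 := by
      intro P hP
      obtain ⟨m, hPm⟩ := hS P hP
      apply Polynomial.map_injective (algebraMap A L) hAL
      rw [Polynomial.map_zero]
      have h1 := M7_map (IsScalarTower.toAlgHom k A L) G P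
      have h2 := M7_map (IsScalarTower.toAlgHom k A L) f P
      rw [hf P hP, Polynomial.map_zero] at h2
      refine h1.trans ?_
      have h3 : (fun i => (G i).map ((IsScalarTower.toAlgHom k A L : A →ₐ[k] L) : A →+* L)) = g :=
        funext hG1
      have h4 : (fun i => (f i).map ((IsScalarTower.toAlgHom k A L : A →ₐ[k] L) : A →+* L)) = F :=
        hF.symm
      rw [h3]
      rw [h4] at h2
      have h5 := M7_comp F (Polynomial.C θ * Polynomial.X) P
      rw [← h2, Polynomial.zero_comp] at h5
      have h6 : (fun i => (F i).comp (Polynomial.C θ * Polynomial.X)) =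
          fun i => (Polynomial.C (θ ^ e)) ^ w i * g i := by
        funext i
        rw [← hg1 i, ← Polynomial.C_pow, ← pow_mul, mul_comm e (w i)]
      rw [h6, M7_scale hPm] at h5
      exact (mul_eq_zero.mp h5.symm).resolve_left
        (pow_ne_zero _ (Polynomial.C_ne_zero.mpr (pow_ne_zero _ hθ)))
    -- the reductions
    obtain ⟨gb, hgb⟩ : ∃ gb : Fin (n + 1) → Polynomial (IsLocalRing.ResidueField A),
        gb = fun i => (G i).map (IsLocalRing.residue A) := ⟨_, rfl⟩
    have hgbc : ∀ i l, (gb i).coeff l = IsLocalRing.residue A ((G i).coeff l) := by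
      intro i l
      rw [hgb]
      simp only [Polynomial.coeff_map]
    have hgbS : ∀ P ∈ S, MvPolynomial.aeval gb P = 0 := by
      intro P hP
      have h1 := M7_map (IsScalarTower.toAlgHom k A (IsLocalRing.ResidueField A)) G P
      rw [hGS P hP, Polynomial.map_zero] at h1
      have h3 : (fun i => (G i).map ((IsScalarTower.toAlgHom k A (IsLocalRing.ResidueField A) :
          A →ₐ[k] IsLocalRing.ResidueField A) : A →+* IsLocalRing.ResidueField A)) = gb := by
        rw [hgb]
        rfl
      rw [h3] at h1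
      exact h1.symm
    have hgbd : ∀ i, (gb i).natDegree ≤ w i * e := by
      intro i
      rw [Polynomial.natDegree_le_iff_coeff_eq_zero]
      intro l hl
      rw [hgbc, ← hnu, ← hGc]
      exact hg3 i l hl
    obtain ⟨ε, hε⟩ : ∃ ε : IsLocalRing.ResidueField A, ε = h'.coeff 0 := ⟨_, rfl⟩
    have hε0 : ε ≠ 0 := by rwa [hε]
    have hgbe : ∀ i, (gb i).coeff (w i * e) = bc (IsLocalRing.ResidueField A) v i * ε ^ w i := by
      intro i
      have h1 : (G i).coeff (w i * e) = (f i).coeff (w i * e) := by
        apply hAL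
        show ((G i).coeff (w i * e) : L) = ((f i).coeff (w i * e) : L)
        rw [← hGc, ← hFc, hg4]
      rw [hgbc, h1, hcoef, hε]
      exact (M7_coeff hh1 _ (w i)).2
    obtain ⟨r, hrr⟩ : ∃ r : Fin (n + 1) → Polynomial (IsLocalRing.ResidueField A),
        r = fun i => Polynomial.C ((ε⁻¹) ^ w i) * (gb i).reflect (w i * e) := ⟨_, rfl⟩
    have hrd : ∀ i, (r i).natDegree ≤ w i * e := by
      intro i
      rw [hrr]
      refine (Polynomial.natDegree_C_mul_le _ _).trans ?_
      refine Polynomial.natDegree_reflect_le.trans ?_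
      rw [max_eq_left (hgbd i)]
    have hr0 : ∀ i, (r i).coeff 0 = bc (IsLocalRing.ResidueField A) v i := by
      intro i
      rw [hrr]
      simp only
      rw [Polynomial.coeff_C_mul, Polynomial.coeff_reflect, Polynomial.revAt_zero, hgbe, inv_pow]
      have := pow_ne_zero (w i) hε0
      field_simp
    have hrS : ∀ P ∈ S, MvPolynomial.aeval r P = 0 := by
      intro P hP
      obtain ⟨m, hPm⟩ := hS P hP
      rw [hrr]
      exact M7_refl hPm e _ gb hgbd (hgbS P hP)
    have hBi := hM e he r hrd hr0 hrS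
    have hb0 : bc (IsLocalRing.ResidueField A) v ≠ 0 := by
      obtain ⟨i, hi⟩ := Function.ne_iff.mp hv
      exact Function.ne_iff.mpr ⟨i, (hbi i).mpr hi⟩
    have hGcv : Gc w (bc (IsLocalRing.ResidueField A) v) := by
      refine hG _ hb0 fun P hP => ?_
      have h1 := MvPolynomial.comp_aeval_apply r
        ((Polynomial.aeval (0 : IsLocalRing.ResidueField A) :
          Polynomial (IsLocalRing.ResidueField A) →ₐ[IsLocalRing.ResidueField A]
            IsLocalRing.ResidueField A).restrictScalars k) P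
      rw [hrS P hP, map_zero] at h1
      have h2 : (fun i => ((Polynomial.aeval (0 : IsLocalRing.ResidueField A) :
          Polynomial (IsLocalRing.ResidueField A) →ₐ[IsLocalRing.ResidueField A]
            IsLocalRing.ResidueField A).restrictScalars k) (r i)) =
          bc (IsLocalRing.ResidueField A) v := by
        funext i
        rw [← hr0 i, Polynomial.coeff_zero_eq_eval_zero]
        rfl
      rw [h2] at h1
      exact h1.symm
    obtain ⟨f₁, hf₁, hrf⟩ := orbit_poly hw hb0 hGcv hBi hr0
    have hf₁0 : f₁ ≠ 0 := by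
      intro h0
      rw [h0, Polynomial.eval_zero] at hf₁
      exact zero_ne_one hf₁
    have hf₁d : f₁.natDegree ≤ e := by
      obtain ⟨i, hi⟩ := Function.ne_iff.mp hv
      have h1 := hrd i
      rw [hrf i, Polynomial.natDegree_C_mul ((hbi i).mpr hi), Polynomial.natDegree_pow] at h1
      exact Nat.le_of_mul_le_mul_left h1 (hw i)
    obtain ⟨h₂, hh₂⟩ : ∃ h₂ : Polynomial (IsLocalRing.ResidueField A),
        h₂ = Polynomial.C ε * f₁.reflect e := ⟨_, rfl⟩
    have hh₂0 : h₂ ≠ 0 := by
      rw [hh₂]
      refine mul_ne_zero (Polynomial.C_ne_zero.mpr hε0) ?_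
      rw [Ne, Polynomial.reflect_eq_zero_iff]
      exact hf₁0
    have hgh : ∀ i, gb i = Polynomial.C (bc (IsLocalRing.ResidueField A) v i) * h₂ ^ w i := by
      intro i
      have h1 : (gb i).reflect (w i * e) = Polynomial.C (ε ^ w i) *
          (Polynomial.C (bc (IsLocalRing.ResidueField A) v i) * f₁ ^ w i) := by
        rw [← hrf i, hrr]
        simp only
        rw [← mul_assoc, ← Polynomial.C_mul, ← mul_pow, mul_inv_cancel₀ hε0, one_pow, Polynomial.C_1, one_mul]
      have h2 : gb i = ((gb i).reflect (w i * e)).reflect (w i * e) := Polynomial.reflect_reflect.symm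
      rw [h2, h1, Polynomial.reflect_C_mul, Polynomial.reflect_C_mul, M7_pow hf₁d, hh₂, mul_pow,
        ← Polynomial.C_pow]
      ring
    obtain ⟨e', h₃, hh₃, hh₃0⟩ : ∃ (e' : ℕ) (h₃ : Polynomial (IsLocalRing.ResidueField A)),
        h₂ = Polynomial.X ^ e' * h₃ ∧ h₃.coeff 0 ≠ 0 := by
      obtain ⟨q, hq, hq2⟩ := Polynomial.exists_eq_pow_rootMultiplicity_mul_and_not_dvd h₂ hh₂0 0
      refine ⟨h₂.rootMultiplicity 0, q, ?_, ?_⟩
      · rw [Polynomial.C_0, sub_zero] at hq
        exact hq
      · rw [Polynomial.C_0, sub_zero, Polynomial.X_dvd_iff] at hq2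
        exact hq2
    have he' : e' < e := by
      by_contra hcon
      push Not at hcon
      have h1 : h₂ = Polynomial.X ^ e * (Polynomial.X ^ (e' - e) * h₃) := by
        rw [← mul_assoc, ← pow_add, Nat.add_sub_cancel' hcon]
        exact hh₃
      apply hg5
      rw [hGc, hnu, ← hgbc, hgh i₀]
      exact (M7_coeff h1 _ (w i₀)).1 l₀ hl₀
    have hfin := ih e' he' (he'.trans he) G hGS h₂ (fun i => by
      have h1 := hgh i
      rw [hgb] at h1
      exact h1) ⟨h₃, hh₃, hh₃0⟩
    have hzero : ∀ i, (G i).coeff 0 = 0 ↔ (f i).coeff 0 = 0 := by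
      intro i
      have h1 := congrArg (fun p => Polynomial.coeff p 0) (hg1 i)
      simp only [Polynomial.coeff_C_mul] at h1
      rw [Polynomial.coeff_zero_eq_eval_zero ((F i).comp _), Polynomial.eval_comp, Polynomial.eval_mul,
        Polynomial.eval_X, mul_zero, ← Polynomial.coeff_zero_eq_eval_zero, hGc, hFc] at h1
      have h2 : θ ^ (w i * e) ≠ 0 := pow_ne_zero _ hθ
      constructor
      · intro h0
        rw [h0] at h1
        apply hAL
        show ((f i).coeff 0 : L) = ((0 : A) : L)
        rw [← h1]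
        simp
      · intro h0
        rw [h0] at h1
        apply hAL
        show ((G i).coeff 0 : L) = ((0 : A) : L)
        have h3 : ((0 : A) : L) = 0 := rfl
        rw [h3] at h1 ⊢
        exact (mul_eq_zero.mp h1).resolve_left h2
    rcases hfin with h1 | h1
    · left
      exact fun i => (hzero i).mp (h1 i)
    · right
      exact fun i hi h0 => h1 i hi ((hzero i).mpr h0)
  · left
    push Not at hne
    intro i
    have h1 := hne i 0 (Nat.mul_pos (hw i) hepos)
    rw [hFc] at h1
    exact Subtype.ext h1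

end Pool.Agent.Lib.MP_1e3e9c_agM
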