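import Mathlib
import Pool.Agent.Lib.MP_1e3e9c_agM.M2
import Pool.Agent.Lib.MP_1e3e9c_agM.M3
import Pool.Agent.Lib.MP_1e3e9c_agM.M4
import Pool.Agent.Lib.MP_1e3e9c_agM.M5
import Pool.Agent.Lib.MP_1e3e9c_agM.M7

/-!
# MP_1e3e9c_ag, project M, leaf M8: constant limits are trivial

PROOF. Suppose `c₀` is a zero of the vanishing ideal of `Cn`, constant, not `Triv`. `v` is in the zero set of `S` (`Cn ≠ ∅`, value at `t = 0`; if `Cn = ∅` then `1` is in the ideal). `bi_of_const` (M2) and `orbit_poly` (M1): `crv w D v c₀ i = C (v i) * h ^ w i`, `h(0) = 1`, `h ∈ k[X]`, `natDegree h ≤ D` (an `i` with `v i ≠ 0`). `h ≠ 1` (otherwise `Triv`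
with `b = 0`), so `h` has a zero `b ∈ k`, `b ≠ 0`, of multiplicity `e ≥ 1`; if `e = D`, then `h = (1 - X / b)^D` (`h(0) = 1`) and `Triv`: so `e < D`. `exists_dom` (M4) with `Z = Cn`, `J` = the conditions `P(crv c(τ)) = 0`, `τ ∈ k`, `P ∈ S`, as polynomials in `c`, and
`B` = the binomials `(crv c i (τ))^(w j) v_j^(w i) - (crv c j (τ))^(w i) v_i^(w j)`, `τ ∈ k` (`hB`: if all vanish at `c ∈ Z`, then by `orbit` (M1) `c` is constant) gives `L, A, c`; `f = crv w D v c` over `A`: `aeval f P = 0` over `L` (zeros at all `τ ∈ k`, infinite), `¬ Bi`. The residue field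
`κ` of `A` is a `k`-algebra, `Mn κ`, `Gp κ`, `Mn L`, `Gp L` by M2; the reduction of `f i` is `crv w D v c₀ i = C (v i) * h ^ w i`. Let `v i₀ ≠ 0`. `lift_root` (M5) for `F = f i₀` (its reduction `v i₀ h^(w i₀)` is not `0` and has the zero `b`): `τ ∈ A`, `f i₀ (τ) = 0`,
`τ ≡ b`. The shifted curve `f(τ + X)` over `A` has the reduction `C (v i) * (h(b + X)) ^ w i`, `h(b + X) = X^e * h'`, `h'(0) ≠ 0`. `centre` (M7): either `f i (τ) = 0` for all `i`, which contradicts `no_base` (M3) over `L`, or `f i₀ (τ) ≠ 0`: contradiction.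
-/

set_option autoImplicit false

namespace Pool.Agent.Lib.MP_1e3e9c_agM

open Pool.Agent.Lib.MP_1e3e9c_agR

/-- The coordinates of the universal curve at `τ`. -/
private noncomputable def M8_Y {k : Type} [Field k] {n : ℕ} (w : Fin (n + 1) → ℕ) (D : ℕ)
    (v : Fin (n + 1) → k) (τ : k) (i : Fin (n + 1)) : MvPolynomial (Un w D) k :=
  MvPolynomial.C (v i) +
    ∑ l : Fin (w i * D), MvPolynomial.C (τ ^ ((l : ℕ) + 1)) * MvPolynomial.X ⟨i, l⟩

private theorem M8_Y_aeval {k L : Type} [Field k] [Field L] [Algebra k L] {n : ℕ}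
    (w : Fin (n + 1) → ℕ) (D : ℕ) (v : Fin (n + 1) → k) (τ : k) (i : Fin (n + 1))
    (c : Un w D → L) :
    MvPolynomial.aeval c (M8_Y w D v τ i) = (crv w D (bc L v) c i).eval (algebraMap k L τ) := by
  unfold M8_Y crv bc
  rw [map_add, map_sum, Polynomial.eval_add, Polynomial.eval_C, Polynomial.eval_finsetSum,
    MvPolynomial.aeval_C]
  congr 1
  refine Finset.sum_congr rfl fun l _ => ?_
  rw [map_mul, MvPolynomial.aeval_C, MvPolynomial.aeval_X, Polynomial.eval_mul,
    Polynomial.eval_C, Polynomial.eval_pow, Polynomial.eval_X, map_pow, mul_comm]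

private theorem M8_Y_eval {k : Type} [Field k] {n : ℕ}
    (w : Fin (n + 1) → ℕ) (D : ℕ) (v : Fin (n + 1) → k) (τ : k) (i : Fin (n + 1))
    (c : Un w D → k) :
    MvPolynomial.eval c (M8_Y w D v τ i) = (crv w D v c i).eval τ := by
  have h := M8_Y_aeval (L := k) w D v τ i c
  rw [MvPolynomial.aeval_eq_eval] at h
  exact h

private theorem M8_eval {k L : Type} [Field k] [Field L] [Algebra k L] {n : ℕ}
    (f : Fin (n + 1) → Polynomial L) (t : L) (P : MvPolynomial (Fin (n + 1)) k) :
    (MvPolynomial.aeval f P).eval t = MvPolynomial.aeval (fun i => (f i).eval t) P := by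
  induction P using MvPolynomial.induction_on with
  | C a =>
    rw [MvPolynomial.aeval_C, MvPolynomial.aeval_C, Polynomial.algebraMap_apply, Polynomial.eval_C]
  | add p q hp hq => rw [map_add, map_add, Polynomial.eval_add, hp, hq]
  | mul_X p i hp =>
    rw [map_mul, map_mul, Polynomial.eval_mul, hp, MvPolynomial.aeval_X, MvPolynomial.aeval_X]

private theorem M8_map {k R R' : Type} [Field k] [CommRing R] [CommRing R'] [Algebra k R]
    [Algebra k R'] (g : R →+* R') (hg : ∀ a : k, g (algebraMap k R a) = algebraMap k R' a) {n : ℕ}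
    (f : Fin (n + 1) → Polynomial R) (P : MvPolynomial (Fin (n + 1)) k) :
    (MvPolynomial.aeval f P).map g = MvPolynomial.aeval (fun i => (f i).map g) P := by
  induction P using MvPolynomial.induction_on with
  | C a =>
    rw [MvPolynomial.aeval_C, MvPolynomial.aeval_C, Polynomial.algebraMap_apply,
      Polynomial.algebraMap_apply, Polynomial.map_C, hg]
  | add p q hp hq => rw [map_add, map_add, Polynomial.map_add, hp, hq]
  | mul_X p i hp =>
    rw [map_mul, map_mul, Polynomial.map_mul, hp, MvPolynomial.aeval_X, MvPolynomial.aeval_X]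

private theorem M8_comp {k R : Type} [Field k] [CommRing R] [Algebra k R] {n : ℕ}
    (f : Fin (n + 1) → Polynomial R) (q : Polynomial R) (P : MvPolynomial (Fin (n + 1)) k) :
    (MvPolynomial.aeval f P).comp q = MvPolynomial.aeval (fun i => (f i).comp q) P := by
  induction P using MvPolynomial.induction_on with
  | C a =>
    rw [MvPolynomial.aeval_C, MvPolynomial.aeval_C, Polynomial.algebraMap_apply, Polynomial.C_comp]
  | add p q hp hq => rw [map_add, map_add, Polynomial.add_comp, hp, hq]
  | mul_X p i hp =>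
    rw [map_mul, map_mul, Polynomial.mul_comp, hp, MvPolynomial.aeval_X, MvPolynomial.aeval_X]

/-- A zero of multiplicity less than `D`. -/
private theorem M8_root {k : Type} [Field k] [IsAlgClosed k] {D : ℕ} {h : Polynomial k}
    (h1 : h.eval 0 = 1) (hd : h.natDegree ≤ D) (hne : h ≠ 1)
    (hT : ¬ ∃ b : k, h = (1 + Polynomial.C b * Polynomial.X) ^ D) :
    ∃ (b : k) (e : ℕ) (h' : Polynomial k), e < D ∧ h.eval b = 0 ∧
      h.comp (Polynomial.X + Polynomial.C b) = Polynomial.X ^ e * h' ∧ h'.coeff 0 ≠ 0 := by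
  have h0 : h ≠ 0 := by
    rintro rfl
    rw [Polynomial.eval_zero] at h1
    exact zero_ne_one h1
  have hdeg : h.degree ≠ 0 := by
    intro hdeg
    have h2 := Polynomial.eq_C_of_degree_eq_zero hdeg
    apply hne
    rw [h2, Polynomial.coeff_zero_eq_eval_zero, h1, Polynomial.C_1]
  obtain ⟨b, hb⟩ := IsAlgClosed.exists_root h hdeg
  have hb' : h.eval b = 0 := hb
  have hb0 : b ≠ 0 := by
    rintro rfl
    rw [h1] at hb'
    exact one_ne_zero hb'
  obtain ⟨q, hq, hqd⟩ := Polynomial.exists_eq_pow_rootMultiplicity_mul_and_not_dvd h h0 b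
  set e := h.rootMultiplicity b with he
  have hq0 : q ≠ 0 := by
    rintro rfl
    exact hqd (dvd_zero _)
  have hqb : q.eval b ≠ 0 := fun hh => hqd (Polynomial.dvd_iff_isRoot.2 hh)
  have hnd : h.natDegree = e + q.natDegree := by
    conv_lhs => rw [hq]
    rw [Polynomial.natDegree_mul (pow_ne_zero _ (Polynomial.X_sub_C_ne_zero b)) hq0,
      Polynomial.natDegree_pow, Polynomial.natDegree_X_sub_C, mul_one]
  refine ⟨b, e, q.comp (Polynomial.X + Polynomial.C b), ?_, hb', ?_, ?_⟩
  · refine lt_of_le_of_ne (by omega) fun heD => hT ?_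
    have hq1 : q.natDegree = 0 := by omega
    obtain ⟨a, rfl⟩ := Polynomial.natDegree_eq_zero.1 hq1
    have hX : Polynomial.X - Polynomial.C b =
        Polynomial.C (-b) * (1 + Polynomial.C (-b)⁻¹ * Polynomial.X) := by
      rw [mul_add, mul_one, ← mul_assoc, ← Polynomial.C_mul, mul_inv_cancel₀ (neg_ne_zero.2 hb0),
        Polynomial.C_1, one_mul, Polynomial.C_neg]
      ring
    refine ⟨(-b)⁻¹, ?_⟩
    have h3 : (-b) ^ D * a = 1 := by
      rw [← h1, hq, heD, Polynomial.eval_mul, Polynomial.eval_pow, Polynomial.eval_sub,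
        Polynomial.eval_X, Polynomial.eval_C, Polynomial.eval_C, zero_sub]
    rw [hq, heD, hX, mul_pow, ← Polynomial.C_pow, mul_right_comm, ← Polynomial.C_mul, h3,
      Polynomial.C_1, one_mul]
  · conv_lhs => rw [hq]
    rw [Polynomial.mul_comp, Polynomial.pow_comp, Polynomial.sub_comp, Polynomial.X_comp,
      Polynomial.C_comp, add_sub_cancel_right]
  · rw [Polynomial.coeff_zero_eq_eval_zero, Polynomial.eval_comp, Polynomial.eval_add,
      Polynomial.eval_X, Polynomial.eval_C, zero_add]
    exact hqb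

theorem const_triv {k : Type} [Field k] [IsAlgClosed k] {n D : ℕ} {w : Fin (n + 1) → ℕ}
    (hw : ∀ i, 0 < w i) (hD : 0 < D) {S : Set (MvPolynomial (Fin (n + 1)) k)}
    (hS : ∀ P ∈ S, ∃ m, P.IsWeightedHomogeneous w m) {v : Fin (n + 1) → k} (hv : v ≠ 0)
    (hM : Mn k w S D v) (hG : Gp k w S) (c₀ : Un w D → k)
    (h0 : ∀ q ∈ MvPolynomial.vanishingIdeal k (Cn w D S v), MvPolynomial.eval c₀ q = 0)
    (hc : ∀ t, ∃ a : k, ∀ i, (crv w D v c₀ i).eval t = a ^ w i * v i) : Triv w D v c₀ := by
  classical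
  by_contra hT
  have hinf : Infinite k := IsAlgClosed.instInfinite
  -- the point `v` is in the zero set
  have hne : (Cn w D S v).Nonempty := by
    rw [Set.nonempty_iff_ne_empty]
    intro h
    have h1 := h0 1 (by
      rw [MvPolynomial.mem_vanishingIdeal_iff, h]
      intro x hx
      exact absurd hx (Set.notMem_empty x))
    rw [map_one] at h1
    exact one_ne_zero h1
  obtain ⟨c₁, hc₁, _⟩ := hne
  have hvS : ∀ P ∈ S, MvPolynomial.eval v P = 0 := by
    intro P hP
    have h2 := hc₁ 0 P hP
    rwa [val_crv_zero] at h2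
  have hgv : Gc w v := hG v hv fun P hP => by
    rw [MvPolynomial.aeval_eq_eval]
    exact hvS P hP
  obtain ⟨i₀, hi₀⟩ : ∃ i, v i ≠ 0 := by
    by_contra hh
    push Not at hh
    exact hv (funext hh)
  -- the constant limit
  have hcoeff : ∀ i, (crv w D v c₀ i).coeff 0 = v i := by
    intro i
    rw [Polynomial.coeff_zero_eq_eval_zero]
    exact congrFun (val_crv_zero v c₀) i
  obtain ⟨h, h1, hh⟩ := orbit_poly hw hv hgv (bi_of_const hc) hcoeff
  have hd : h.natDegree ≤ D := by
    have h2 := natDegree_crv v c₀ i₀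
    rw [hh, Polynomial.natDegree_C_mul hi₀, Polynomial.natDegree_pow] at h2
    exact Nat.le_of_mul_le_mul_left h2 (hw i₀)
  have hne1 : h ≠ 1 := by
    rintro rfl
    apply hT
    refine ⟨0, fun i => ?_⟩
    rw [hh, one_pow, Polynomial.C_0, zero_mul, add_zero, one_pow]
  have hT' : ¬ ∃ b : k, h = (1 + Polynomial.C b * Polynomial.X) ^ D := by
    rintro ⟨b, hb⟩
    apply hT
    refine ⟨b, fun i => ?_⟩
    rw [hh, hb, ← pow_mul, mul_comm D]
  obtain ⟨b, e, h', heD, hb, hcomp, hh'⟩ := M8_root h1 hd hne1 hT'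
  -- the valuation ring
  obtain ⟨L, iF, iC, iA, A, c, hkA, hJ, hB, hcA⟩ := exists_dom (Cn w D S v) c₀ h0
    {q | ∃ τ : k, ∃ P ∈ S, q = MvPolynomial.aeval (M8_Y w D v τ) P}
    {q | ∃ (τ : k) (i j : Fin (n + 1)), q = M8_Y w D v τ i ^ w j * MvPolynomial.C (v j ^ w i) -
      M8_Y w D v τ j ^ w i * MvPolynomial.C (v i ^ w j)} (by
      rintro c hc q ⟨τ, P, hP, rfl⟩
      have h2 : MvPolynomial.eval c (MvPolynomial.aeval (M8_Y w D v τ) P) =
          MvPolynomial.eval (val (crv w D v c) τ) P := by
        rw [← MvPolynomial.aeval_eq_eval, ← MvPolynomial.aeval_eq_eval, MvPolynomial.comp_aeval_apply]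
        congr 2
        funext i
        rw [MvPolynomial.aeval_eq_eval]
        exact M8_Y_eval w D v τ i c
      rw [h2]
      exact hc.1 τ P hP) (by
      intro c hc
      by_contra hcon
      push Not at hcon
      apply hc.2
      intro τ
      refine orbit hw hv hgv fun i j => ?_
      have h2 := hcon _ ⟨τ, i, j, rfl⟩
      simp only [map_sub, map_mul, map_pow, MvPolynomial.eval_C, M8_Y_eval] at h2
      exact sub_eq_zero.1 h2)
  -- the curve over `L`
  let f : Fin (n + 1) → Polynomial L := crv w D (bc L v) c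
  have hinj : Function.Injective (algebraMap k L) := (algebraMap k L).injective
  have hfS : ∀ P ∈ S, MvPolynomial.aeval f P = 0 := by
    intro P hP
    refine Polynomial.eq_zero_of_infinite_isRoot _ (Set.Infinite.mono ?_
      (Set.infinite_range_of_injective hinj))
    rintro _ ⟨τ, rfl⟩
    change (MvPolynomial.aeval f P).eval (algebraMap k L τ) = 0
    rw [M8_eval]
    have h2 := hJ _ ⟨τ, P, hP, rfl⟩
    rw [MvPolynomial.comp_aeval_apply] at h2
    rw [← h2]
    congr 2
    funext i
    exact (M8_Y_aeval w D v τ i c).symm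
  have hfB : ¬ Bi w (bc L v) f := by
    intro hbi
    obtain ⟨q, ⟨τ, i, j, rfl⟩, hq⟩ := hB
    apply hq
    simp only [map_sub, map_mul, map_pow, MvPolynomial.aeval_C, M8_Y_aeval]
    rw [sub_eq_zero]
    have h2 := congrArg (Polynomial.eval (algebraMap k L τ)) (hbi i j)
    rw [Polynomial.eval_mul, Polynomial.eval_mul, Polynomial.eval_pow, Polynomial.eval_pow,
      Polynomial.eval_C, Polynomial.eval_C] at h2
    exact h2
  -- the structure of `A`
  let iAk : Algebra k A := ((algebraMap k L).codRestrict A.toSubring hkA).toAlgebra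
  have iT : IsScalarTower k A L := IsScalarTower.of_algebraMap_eq fun _ => rfl
  have hcm : ∀ x, c x ∈ A := by
    intro x
    have h2 := A.add_mem _ _ (A.nonunits_subset (hcA x)) (hkA (c₀ x))
    rwa [sub_add_cancel] at h2
  let cA : Un w D → A := fun x => ⟨c x, hcm x⟩
  let fA : Fin (n + 1) → Polynomial A := fun i => Polynomial.C (algebraMap k A (v i)) +
    ∑ l : Fin (w i * D), Polynomial.C (cA ⟨i, l⟩) * Polynomial.X ^ ((l : ℕ) + 1)
  have hfA : ∀ i, (fA i).map (algebraMap A L) = f i := by
    intro i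
    simp only [fA, f, crv, Polynomial.map_add, Polynomial.map_sum, Polynomial.map_mul,
      Polynomial.map_pow, Polynomial.map_C, Polynomial.map_X]
    rfl
  have hres0 : ∀ (x : A) (a : k), (x : L) - algebraMap k L a ∈ A.nonunits →
      IsLocalRing.residue A x = algebraMap k (IsLocalRing.ResidueField A) a := by
    intro x a h3
    have h2 : IsLocalRing.residue A (x - algebraMap k A a) = 0 := by
      rw [IsLocalRing.residue_eq_zero_iff]
      rw [ValuationSubring.mem_nonunits_iff_exists_mem_maximalIdeal] at h3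
      obtain ⟨_, h4⟩ := h3
      exact h4
    rw [map_sub, sub_eq_zero] at h2
    rw [h2]
    rfl
  have hres : ∀ x, IsLocalRing.residue A (cA x) =
      algebraMap k (IsLocalRing.ResidueField A) (c₀ x) := fun x => hres0 (cA x) (c₀ x) (hcA x)
  let g : k →+* IsLocalRing.ResidueField A := algebraMap k (IsLocalRing.ResidueField A)
  have hfr : ∀ i, (fA i).map (IsLocalRing.residue A) =
      Polynomial.C (bc (IsLocalRing.ResidueField A) v i) * (h.map g) ^ w i := by
    intro i
    have h2 : (crv w D v c₀ i).map g = (fA i).map (IsLocalRing.residue A) := by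
      simp only [fA, crv, Polynomial.map_add, Polynomial.map_sum, Polynomial.map_mul,
        Polynomial.map_pow, Polynomial.map_C, Polynomial.map_X, hres]
      rfl
    rw [← h2, hh i, Polynomial.map_mul, Polynomial.map_pow, Polynomial.map_C]
    rfl
  have hfAS : ∀ P ∈ S, MvPolynomial.aeval fA P = 0 := by
    intro P hP
    apply Polynomial.map_injective (algebraMap A L) (IsFractionRing.injective A L)
    rw [M8_map (algebraMap A L) (fun a => rfl), Polynomial.map_zero, ← hfS P hP]
    congr 2
    funext i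
    exact hfA i
  -- the root
  have hu : ∃ j, (f i₀).coeff j ∉ A.nonunits := by
    refine ⟨0, ?_⟩
    have h2 : (f i₀).coeff 0 = algebraMap k L (v i₀) := by
      rw [Polynomial.coeff_zero_eq_eval_zero]
      exact congrFun (val_crv_zero (bc L v) c) i₀
    rw [h2]
    intro h3
    rw [ValuationSubring.mem_nonunits_iff_exists_mem_maximalIdeal] at h3
    obtain ⟨h4, h5⟩ := h3
    rw [IsLocalRing.mem_maximalIdeal, mem_nonunits_iff] at h5
    apply h5
    have h6 : (⟨algebraMap k L (v i₀), h4⟩ : A) = algebraMap k A (v i₀) := rfl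
    rw [h6]
    exact (IsUnit.mk0 (v i₀) hi₀).map (algebraMap k A)
  have hco : ∀ j, (f i₀).coeff j ∈ A := by
    intro j
    rw [← hfA, Polynomial.coeff_map]
    exact ((fA i₀).coeff j).2
  have hroot : (f i₀).eval (algebraMap k L b) ∈ A.nonunits := by
    have h2 : (f i₀).eval (algebraMap k L b) = ((fA i₀).eval (algebraMap k A b) : A) := by
      rw [← hfA]
      exact (Polynomial.eval_map_apply (algebraMap A L) (algebraMap k A b))
    rw [h2, ValuationSubring.mem_nonunits_iff_exists_mem_maximalIdeal]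
    refine ⟨Subtype.mem _, ?_⟩
    rw [← IsLocalRing.residue_eq_zero_iff]
    have h3 := (Polynomial.eval_map_apply (p := fA i₀) (IsLocalRing.residue A) (algebraMap k A b)).symm
    have h4 : IsLocalRing.residue A (algebraMap k A b) = g b := rfl
    rw [hfr, h4, Polynomial.eval_mul, Polynomial.eval_pow, Polynomial.eval_map_apply, hb, map_zero,
      zero_pow (hw i₀).ne', mul_zero] at h3
    exact h3
  obtain ⟨τ, hτ, hτb⟩ := lift_root A (f i₀) hco hu (algebraMap k L b) (hkA b) hroot
  have hτA : τ ∈ A := by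
    have h2 := A.add_mem _ _ (A.nonunits_subset hτb) (hkA b)
    rwa [sub_add_cancel] at h2
  let τA : A := ⟨τ, hτA⟩
  have hτr : IsLocalRing.residue A τA = g b := hres0 τA b hτb
  -- the shifted curve
  let fs : Fin (n + 1) → Polynomial A := fun i =>
    (fA i).comp (Polynomial.X + Polynomial.C τA)
  have hfsS : ∀ P ∈ S, MvPolynomial.aeval fs P = 0 := by
    intro P hP
    have h2 := M8_comp fA (Polynomial.X + Polynomial.C τA) P
    rw [hfAS P hP, Polynomial.zero_comp] at h2
    exact h2.symm
  have hfsr : ∀ i, (fs i).map (IsLocalRing.residue A) =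
      Polynomial.C (bc (IsLocalRing.ResidueField A) v i) *
        ((h.map g).comp (Polynomial.X + Polynomial.C (g b))) ^ w i := by
    intro i
    simp only [fs]
    rw [Polynomial.map_comp, hfr, Polynomial.map_add, Polynomial.map_X, Polynomial.map_C, hτr,
      Polynomial.mul_comp, Polynomial.C_comp, Polynomial.pow_comp]
  have hfsh : (h.map g).comp (Polynomial.X + Polynomial.C (g b)) =
      Polynomial.X ^ e * h'.map g := by
    have h2 := congrArg (Polynomial.map g) hcomp
    rw [Polynomial.map_comp, Polynomial.map_add, Polynomial.map_X, Polynomial.map_C,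
      Polynomial.map_mul, Polynomial.map_pow, Polynomial.map_X] at h2
    exact h2
  have hh'' : (h'.map g).coeff 0 ≠ 0 := by
    rw [Polynomial.coeff_map]
    exact (map_ne_zero g).2 hh'
  have hfs0 : ∀ i, (algebraMap A L) ((fs i).coeff 0) = (f i).eval τ := by
    intro i
    have h3 : (Polynomial.X + Polynomial.C τA).eval 0 = τA := by
      rw [Polynomial.eval_add, Polynomial.eval_X, Polynomial.eval_C, zero_add]
    have h4 : (fs i).coeff 0 = (fA i).eval τA := by
      rw [Polynomial.coeff_zero_eq_eval_zero]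
      exact Polynomial.eval_comp.trans (by rw [h3])
    rw [h4, ← hfA, ← Polynomial.eval_map_apply]
    rfl
  rcases centre A hw hS hv (mn_transfer hM) (gp_transfer hG) e heD fs hfsS _ hfsr
    ⟨_, hfsh, hh''⟩ with h2 | h2
  · obtain ⟨i, hi⟩ := no_base hw hS hv (mn_transfer hM) (gp_transfer hG)
      (fun i => natDegree_crv (bc L v) c i) (fun i => by
        rw [Polynomial.coeff_zero_eq_eval_zero]
        exact congrFun (val_crv_zero (bc L v) c) i) hfS hfB τ
    apply hi
    change (f i).eval τ = 0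
    rw [← hfs0, h2, map_zero]
  · apply h2 i₀ hi₀
    have h3 := hfs0 i₀
    rw [hτ] at h3
    exact (map_eq_zero_iff _ (IsFractionRing.injective A L)).1 h3

end Pool.Agent.Lib.MP_1e3e9c_agM
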