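import Mathlib
import Pool.Agent.Lib.MP_1e3e9c_agM.MDefs

/-!
# MP_1e3e9c_ag, project M, leaf M9: the local dimension of a cone (nearly MATHLIB ONLY)

PROOF. `A = vanishingIdeal k Z` is stable under the scalings (`hZ`), so it is homogeneous for the positive weights `l + 1` (`k` infinite: the homogeneous components of `q ∈ A` are combinations of the `q(λ^(l+1) c)`, Vandermonde). `0` is a zero of `A`: for `c ∈ Z`, `q ∈ A` the polynomial `λ ↦ q(λ^(l+1) c)` vanishes at all `λ ≠ 0`, so
at `λ = 0`. Dimension: there is a minimal prime `𝔮` of `A` with `M ≤ ringKrullDim (k[U] ⧸ 𝔮)` (`ringKrullDim (k[U] ⧸ A)` is the supremum over the minimal primes, finitely many). `𝔮` is homogeneous for the weights `l + 1` (minimal primes over a homogeneous ideal are homogeneous: the homogeneous core `𝔮*` of a prime is prime,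
`Ideal.IsPrime.homogeneousCore`, for `ℕ`-gradings `MvPolynomial.weightedGradedAlgebra`; or: the scalings permute the finitely many minimal primes and the group `k^*` is divisible / infinite), so `𝔮 ≤ 𝔪₀ = ker constantCoeff` (a homogeneous `q` with `constantCoeff q ≠ 0` has weight `0`, is a
nonzero constant). `k[U] ⧸ 𝔮` is a domain of finite type over `k`, so its maximal ideal `𝔪₀ / 𝔮` has height `= ringKrullDim (k[U] ⧸ 𝔮) ≥ M` (see `MP_1e3e9c_agR` B4, R3, `MP_1e3e9c_agW` E7c for what exists; Mathlib: `MvPolynomial.height_eq...`, Noether normalisation and going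
down), and the height of `𝔪₀ / A` in `k[U] ⧸ A` is at least that of `𝔪₀ / 𝔮` (`Ideal.height_le_of_surjective..` / comap of primes under `k[U] ⧸ A → k[U] ⧸ 𝔮`).
-/

set_option autoImplicit false

namespace Pool.Agent.Lib.MP_1e3e9c_agM

open Pool.Agent.Lib.MP_1e3e9c_agR

private theorem M9_int {R S : Type} [CommRing R] [CommRing S] (g : R →+* S)
    (hg : g.IsIntegral) : ringKrullDim S ≤ ringKrullDim R := by
  let := g.toAlgebra
  refine Order.krullDim_le_of_strictMono (PrimeSpectrum.comap g) ?_
  intro p q hpq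
  have hle : p.asIdeal ≤ q.asIdeal := hpq.le
  obtain ⟨x, hxq, hxp⟩ : ∃ x ∈ q.asIdeal, x ∉ p.asIdeal := SetLike.exists_of_lt hpq
  exact Ideal.comap_lt_comap_of_integral_mem_sdiff hle ⟨hxq, hxp⟩ (hg x)

/-- the maximal ideals of the polynomial ring in `s` variables over a field have height at least `s` -/
private theorem M9_mv {k : Type} [Field k] (s : ℕ) :
    ∀ m : Ideal (MvPolynomial (Fin s) k), m.IsMaximal → (s : ℕ∞) ≤ m.height := by
  induction s with
  | zero =>
    intro m _
    simp
  | succ s ih =>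
    intro m hm
    let e := (MvPolynomial.finSuccEquiv k s).toRingEquiv
    let m' : Ideal (Polynomial (MvPolynomial (Fin s) k)) := m.map e
    have hm' : m'.IsMaximal := Ideal.map_isMaximal_of_equiv e
    have h1 : m'.height = m.height := RingEquiv.height_map e m
    have h2 : (m'.comap (Polynomial.C : MvPolynomial (Fin s) k →+* _)).IsMaximal :=
      Polynomial.isMaximal_comap_C_of_isJacobsonRing m'
    have h0 : m'.LiesOver (m'.comap (Polynomial.C : MvPolynomial (Fin s) k →+* _)) := ⟨rfl⟩
    have h3 := Polynomial.height_eq_height_add_one (m'.comap (Polynomial.C : MvPolynomial (Fin s) k →+* _)) m'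
    rw [← h1, h3]
    push_cast
    gcongr
    exact ih _ h2

/-- all maximal ideals of a domain of finite type over a field have the same height -/
private theorem M9_fg {k B : Type} [Field k] [CommRing B] [IsDomain B] [Algebra k B]
    [Algebra.FiniteType k B] (N : Ideal B) (hN : N.IsMaximal) :
    ringKrullDim B ≤ (N.height : WithBot ℕ∞) := by
  obtain ⟨s, g, hi, hint⟩ := exists_integral_inj_algHom_of_fg k B
  have h1 : ringKrullDim B ≤ ringKrullDim (MvPolynomial (Fin s) k) := M9_int g.toRingHom hint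
  rw [MvPolynomial.ringKrullDim_of_isNoetherianRing, ringKrullDim_eq_zero_of_field, zero_add,
    Nat.card_fin] at h1
  let _ : Algebra (MvPolynomial (Fin s) k) B := g.toRingHom.toAlgebra
  have i1 : FaithfulSMul (MvPolynomial (Fin s) k) B :=
    (faithfulSMul_iff_algebraMap_injective _ _).2 hi
  have i2 : Algebra.IsIntegral (MvPolynomial (Fin s) k) B := ⟨hint⟩
  have i3 : IsNoetherianRing B := Algebra.FiniteType.isNoetherianRing k B
  have h2 : (N.under (MvPolynomial (Fin s) k)).IsMaximal :=
    Ideal.isMaximal_comap_of_isIntegral_of_isMaximal N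
  have h3 := Ideal.height_eq_height_add_of_liesOver_of_hasGoingDown
    (N.under (MvPolynomial (Fin s) k)) N
  have h4 := M9_mv s _ h2
  have h5 : (s : ℕ∞) ≤ N.height := by
    rw [h3]
    exact h4.trans le_self_add
  refine h1.trans ?_
  exact_mod_cast h5

/-- the scaling with an additional variable -/
private noncomputable def M9_t {k U : Type} [Field k] (e : U → ℕ) :
    MvPolynomial U k →+* Polynomial (MvPolynomial U k) :=
  MvPolynomial.eval₂Hom (Polynomial.C.comp MvPolynomial.C)
    (fun x => Polynomial.C (MvPolynomial.X x) * Polynomial.X ^ (e x + 1))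

private theorem M9_t0 {k U : Type} [Field k] (e : U → ℕ) (q : MvPolynomial U k) :
    (M9_t e q).coeff 0 = MvPolynomial.C (MvPolynomial.constantCoeff q) := by
  have h : (Polynomial.constantCoeff (R := MvPolynomial U k)).comp (M9_t e) =
      (MvPolynomial.C : k →+* MvPolynomial U k).comp MvPolynomial.constantCoeff := by
    apply MvPolynomial.ringHom_ext
    · intro r
      simp [M9_t]
    · intro i
      simp [M9_t]
  exact congrArg (fun f : MvPolynomial U k →+* MvPolynomial U k => f q) h

private theorem M9_t1 {k U : Type} [Field k] (e : U → ℕ) (q : MvPolynomial U k) :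
    (M9_t e q).eval 1 = q := by
  have h : (Polynomial.evalRingHom (1 : MvPolynomial U k)).comp (M9_t e) =
      RingHom.id (MvPolynomial U k) := by
    apply MvPolynomial.ringHom_ext
    · intro r
      simp [M9_t]
    · intro i
      simp [M9_t]
  exact congrArg (fun f : MvPolynomial U k →+* MvPolynomial U k => f q) h

private theorem M9_ta {k U : Type} [Field k] (e : U → ℕ) (c : U → k) (a : k)
    (q : MvPolynomial U k) :
    ((M9_t e q).map (MvPolynomial.eval c)).eval a =
      MvPolynomial.eval (fun x => a ^ (e x + 1) * c x) q := by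
  have h : ((Polynomial.evalRingHom a).comp (Polynomial.mapRingHom (MvPolynomial.eval c))).comp
      (M9_t e) = MvPolynomial.eval (fun x => a ^ (e x + 1) * c x) := by
    apply MvPolynomial.ringHom_ext
    · intro r
      simp [M9_t]
    · intro i
      simp only [M9_t, RingHom.comp_apply, MvPolynomial.eval₂Hom_X', Polynomial.coe_mapRingHom,
        Polynomial.coe_evalRingHom, Polynomial.map_mul, Polynomial.map_C, Polynomial.map_pow,
        Polynomial.map_X, Polynomial.eval_mul, Polynomial.eval_C, Polynomial.eval_pow,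
        Polynomial.eval_X, MvPolynomial.eval_X]
      ring
  exact congrArg (fun f : MvPolynomial U k →+* k => f q) h

/-- the vanishing ideal of a cone is homogeneous -/
private theorem M9_hom {k U : Type} [Field k] [Infinite k] (e : U → ℕ) (Z : Set (U → k))
    (hZ : ∀ c ∈ Z, ∀ a : k, a ≠ 0 → (fun x : U => a ^ (e x + 1) * c x) ∈ Z)
    (q : MvPolynomial U k) (hq : q ∈ MvPolynomial.vanishingIdeal k Z) (d : ℕ) :
    (M9_t e q).coeff d ∈ MvPolynomial.vanishingIdeal k Z := by
  rw [MvPolynomial.mem_vanishingIdeal_iff] at hq ⊢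
  intro c hc
  have h1 : (M9_t e q).map (MvPolynomial.eval c) = 0 := by
    refine Polynomial.eq_zero_of_infinite_isRoot _ ?_
    refine Set.Infinite.mono (s := {a : k | a ≠ 0}) ?_ ?_
    · intro a ha
      show Polynomial.eval a _ = 0
      rw [M9_ta]
      have := hq _ (hZ c hc a ha)
      rwa [MvPolynomial.aeval_eq_eval] at this
    · have : {a : k | a ≠ 0} = ({0} : Set k)ᶜ := rfl
      rw [this]
      exact (Set.finite_singleton (0 : k)).infinite_compl
  have h2 := congrArg (fun f : Polynomial k => f.coeff d) h1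
  rw [MvPolynomial.aeval_eq_eval]
  simpa using h2

/-- minimal primes over the ideal of a cone consist of polynomials without constant term -/
private theorem M9_min {k U : Type} [Field k] (e : U → ℕ) (A : Ideal (MvPolynomial U k))
    (hA : ∀ q ∈ A, ∀ d, (M9_t e q).coeff d ∈ A) (P : Ideal (MvPolynomial U k))
    (hP : P ∈ A.minimalPrimes) : ∀ q ∈ P, MvPolynomial.constantCoeff q = 0 := by
  have hp : P.IsPrime := hP.1.1
  have hAP : A ≤ P := hP.1.2
  let Q : Ideal (MvPolynomial U k) := (P.map (Polynomial.C : MvPolynomial U k →+* _)).comap (M9_t e)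
  have hQmem : ∀ q, q ∈ Q ↔ ∀ d, (M9_t e q).coeff d ∈ P := fun q => by
    show M9_t e q ∈ P.map (Polynomial.C : MvPolynomial U k →+* _) ↔ _
    rw [Ideal.mem_map_C_iff]
  have h0 : (P.map (Polynomial.C : MvPolynomial U k →+* _)).IsPrime := Ideal.isPrime_map_C_of_isPrime
  have hQ : Q.IsPrime := Ideal.comap_isPrime _ _
  have hAQ : A ≤ Q := fun q hq => (hQmem q).2 fun d => hAP (hA q hq d)
  have hQP : Q ≤ P := by
    intro q hq
    have h1 := (hQmem q).1 hq
    rw [← M9_t1 e q, Polynomial.eval_eq_sum]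
    refine Ideal.sum_mem _ fun d _ => ?_
    exact Ideal.mul_mem_right _ _ (h1 d)
  have hPQ : P ≤ Q := hP.2 ⟨hQ, hAQ⟩ hQP
  intro q hq
  have h1 := (hQmem q).1 (hPQ hq) 0
  rw [M9_t0] at h1
  by_contra h2
  apply hp.ne_top
  rw [Ideal.eq_top_iff_one]
  have h3 := P.mul_mem_left (MvPolynomial.C (MvPolynomial.constantCoeff q)⁻¹) h1
  rwa [← MvPolynomial.C_mul, inv_mul_cancel₀ h2, MvPolynomial.C_1] at h3

/-- the dimension of a quotient is the dimension of the quotient by a minimal prime -/
private theorem M9_chain {R : Type} [CommRing R] (A : Ideal R) (M : ℕ)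
    (hM : ((M : ℕ) : WithBot ℕ∞) ≤ ringKrullDim (R ⧸ A)) :
    ∃ P ∈ A.minimalPrimes, ((M : ℕ) : WithBot ℕ∞) ≤ ringKrullDim (R ⧸ P) := by
  obtain ⟨l, hl⟩ := Order.le_krullDim_iff.1 hM
  let f : PrimeSpectrum (R ⧸ A) → PrimeSpectrum R := PrimeSpectrum.comap (Ideal.Quotient.mk A)
  have hf : StrictMono f := by
    intro p q hpq
    refine lt_of_le_of_ne (Ideal.comap_mono hpq.le) fun h => hpq.ne ?_
    exact PrimeSpectrum.comap_injective_of_surjective _ Ideal.Quotient.mk_surjective h
  have hA : ∀ i, A ≤ (f (l i)).asIdeal := by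
    intro i x hx
    show Ideal.Quotient.mk A x ∈ (l i).asIdeal
    rw [Ideal.Quotient.eq_zero_iff_mem.2 hx]
    exact Ideal.zero_mem _
  obtain ⟨P, hP, hPl⟩ := Ideal.exists_minimalPrimes_le (hA 0)
  refine ⟨P, hP, ?_⟩
  have h1 : ∀ i, P ≤ (f (l i)).asIdeal := fun i =>
    hPl.trans (hf.monotone (LTSeries.head_le l i))
  rw [ringKrullDim_quotient]
  let L : LTSeries (PrimeSpectrum.zeroLocus (P : Set R)) :=
    { length := l.length
      toFun := fun i => ⟨f (l i), h1 i⟩
      step := fun i => hf (l.step i) }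
  exact Order.le_krullDim_iff.2 ⟨L, hl⟩

/-- comparison of the heights -/
private theorem M9_ht {R : Type} [CommRing R] (A P m : Ideal R) (hAP : A ≤ P) (hPm : P ≤ m)
    [hm : m.IsMaximal] :
    (m.map (Ideal.Quotient.mk P)).height ≤ (m.map (Ideal.Quotient.mk A)).height := by
  let f : R ⧸ A →+* R ⧸ P := Ideal.Quotient.factor hAP
  have hf : Function.Surjective f := Ideal.Quotient.factor_surjective hAP
  have hc : ∀ B : Ideal R, B ≤ m → (m.map (Ideal.Quotient.mk B)).comap (Ideal.Quotient.mk B) = m := by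
    intro B hB
    rw [Ideal.comap_map_of_surjective _ Ideal.Quotient.mk_surjective, ← RingHom.ker_eq_comap_bot,
      Ideal.mk_ker, sup_eq_left]
    exact hB
  have hp : ∀ B : Ideal R, B ≤ m → (m.map (Ideal.Quotient.mk B)).IsPrime := by
    intro B hB
    refine Ideal.map_isPrime_of_surjective Ideal.Quotient.mk_surjective ?_
    rw [Ideal.mk_ker]
    exact hB
  have hpP := hp P hPm
  have hpA := hp A (hAP.trans hPm)
  have e : PrimeSpectrum.comap f ⟨m.map (Ideal.Quotient.mk P), hpP⟩ =
      ⟨m.map (Ideal.Quotient.mk A), hpA⟩ := by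
    apply PrimeSpectrum.ext
    apply Ideal.comap_injective_of_surjective (Ideal.Quotient.mk A) Ideal.Quotient.mk_surjective
    rw [hc A (hAP.trans hPm)]
    show ((m.map (Ideal.Quotient.mk P)).comap f).comap (Ideal.Quotient.mk A) = m
    rw [Ideal.comap_comap]
    exact hc P hPm
  have hs : StrictMono (PrimeSpectrum.comap f) := by
    intro p q hpq
    refine lt_of_le_of_ne (Ideal.comap_mono hpq.le) fun h => hpq.ne ?_
    exact PrimeSpectrum.comap_injective_of_surjective _ hf h
  have h1 := Order.height_le_height_apply_of_strictMono (PrimeSpectrum.comap f) hs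
    ⟨m.map (Ideal.Quotient.mk P), hpP⟩
  rw [e, ← PrimeSpectrum.height_eq_orderHeight, ← PrimeSpectrum.height_eq_orderHeight] at h1
  exact h1

theorem cone_dim {k : Type} [Field k] [IsAlgClosed k] {n D M : ℕ} {w : Fin (n + 1) → ℕ}
    (Z : Set (Un w D → k)) (hne : Z.Nonempty)
    (hZ : ∀ c ∈ Z, ∀ a : k, a ≠ 0 → (fun x : Un w D => a ^ ((x.2 : ℕ) + 1) * c x) ∈ Z)
    (hM : ((M : ℕ) : WithBot ℕ∞) ≤
      ringKrullDim (MvPolynomial (Un w D) k ⧸ MvPolynomial.vanishingIdeal k Z)) :
    (∀ q ∈ MvPolynomial.vanishingIdeal k Z, MvPolynomial.constantCoeff q = 0) ∧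
      (M : ℕ∞) ≤ dimAt (MvPolynomial.vanishingIdeal k Z) := by
  classical
  have hom : ∀ q ∈ MvPolynomial.vanishingIdeal k Z, ∀ d,
      (M9_t (fun x : Un w D => (x.2 : ℕ)) q).coeff d ∈ MvPolynomial.vanishingIdeal k Z :=
    fun q hq d => M9_hom (fun x : Un w D => (x.2 : ℕ)) Z hZ q hq d
  have h1 : ∀ q ∈ MvPolynomial.vanishingIdeal k Z, MvPolynomial.constantCoeff q = 0 := by
    intro q hq
    obtain ⟨c, hc⟩ := hne
    have h2 := hom q hq 0
    rw [M9_t0, MvPolynomial.mem_vanishingIdeal_iff] at h2
    have h3 := h2 c hc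
    simpa using h3
  refine ⟨h1, ?_⟩
  obtain ⟨P, hP, hdim⟩ := M9_chain _ M hM
  have hp : P.IsPrime := hP.1.1
  have hP0 := M9_min _ _ hom P hP
  have hm : (RingHom.ker (MvPolynomial.constantCoeff : MvPolynomial (Un w D) k →+* k)).IsMaximal :=
    RingHom.ker_isMaximal_of_surjective _ fun a => ⟨MvPolynomial.C a, by simp⟩
  have hPm : P ≤ RingHom.ker (MvPolynomial.constantCoeff : MvPolynomial (Un w D) k →+* k) :=
    fun q hq => hP0 q hq
  have hmax : ((RingHom.ker (MvPolynomial.constantCoeff : MvPolynomial (Un w D) k →+* k)).map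
      (Ideal.Quotient.mk P)).IsMaximal := by
    refine Ideal.IsMaximal.map_of_surjective_of_ker_le Ideal.Quotient.mk_surjective ?_
    rw [Ideal.mk_ker]
    exact hPm
  have h5 := hdim.trans (M9_fg (k := k) _ hmax)
  have h6 : (M : ℕ∞) ≤ ((RingHom.ker (MvPolynomial.constantCoeff :
      MvPolynomial (Un w D) k →+* k)).map (Ideal.Quotient.mk P)).height := by exact_mod_cast h5
  exact h6.trans (M9_ht _ P _ hP.1.2 hPm)

end Pool.Agent.Lib.MP_1e3e9c_agM
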