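import Mathlib
import Pool.Agent.Lib.MP_1e3e9c_agM.M8
import Pool.Agent.Lib.MP_1e3e9c_agM.M9

/-!
# MP_1e3e9c_ag, project M: the curves of least degree form an unsplit family
-/

set_option autoImplicit false

namespace Pool.Agent.Lib.MP_1e3e9c_agM

open Pool.Agent.Lib.MP_1e3e9c_agR

variable {k : Type} [Field k] {n D : ℕ} {w : Fin (n + 1) → ℕ}

/-- the value at `t` of the generic curve through `v` -/
noncomputable def gp (w : Fin (n + 1) → ℕ) (D : ℕ) (v : Fin (n + 1) → k) (t : k)
    (i : Fin (n + 1)) : MvPolynomial (Un w D) k :=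
  MvPolynomial.C (v i) + ∑ l : Fin (w i * D), MvPolynomial.C (t ^ ((l : ℕ) + 1)) *
    MvPolynomial.X ⟨i, l⟩

theorem eval_gp (v : Fin (n + 1) → k) (t : k) (i : Fin (n + 1)) (c : Un w D → k) :
    MvPolynomial.eval c (gp w D v t i) = (crv w D v c i).eval t := by
  unfold gp crv
  rw [map_add, MvPolynomial.eval_C, map_sum, Polynomial.eval_add, Polynomial.eval_C,
    Polynomial.eval_finsetSum]
  congr 1
  refine Finset.sum_congr rfl fun l _ => ?_
  rw [map_mul, MvPolynomial.eval_C, MvPolynomial.eval_X, Polynomial.eval_mul, Polynomial.eval_C,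
    Polynomial.eval_pow, Polynomial.eval_X, mul_comm]

theorem eval_aeval_gp (v : Fin (n + 1) → k) (t : k) (c : Un w D → k)
    (P : MvPolynomial (Fin (n + 1)) k) :
    MvPolynomial.eval c (MvPolynomial.aeval (gp w D v t) P) =
      MvPolynomial.eval (val (crv w D v c) t) P := by
  induction P using MvPolynomial.induction_on with
  | C a => simp
  | add p q hp hq => rw [map_add, map_add, map_add, hp, hq]
  | mul_X p i hp =>
    rw [map_mul, map_mul, map_mul, hp, MvPolynomial.aeval_X, MvPolynomial.eval_X, eval_gp]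
    rfl

theorem crv_scale (v : Fin (n + 1) → k) (c : Un w D → k) (a t : k) (i : Fin (n + 1)) :
    (crv w D v (fun x : Un w D => a ^ ((x.2 : ℕ) + 1) * c x) i).eval t =
      (crv w D v c i).eval (a * t) := by
  unfold crv
  simp only [Polynomial.eval_add, Polynomial.eval_C, Polynomial.eval_finsetSum,
    Polynomial.eval_mul, Polynomial.eval_pow, Polynomial.eval_X]
  congr 1
  refine Finset.sum_congr rfl fun l _ => ?_
  rw [mul_pow]
  ring

theorem cn_scale {S : Set (MvPolynomial (Fin (n + 1)) k)} {v : Fin (n + 1) → k}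
    (c : Un w D → k) (hc : c ∈ Cn w D S v) (a : k) (ha : a ≠ 0) :
    (fun x : Un w D => a ^ ((x.2 : ℕ) + 1) * c x) ∈ Cn w D S v := by
  obtain ⟨h1, h2⟩ := hc
  refine ⟨fun t P hP => ?_, fun h => h2 fun t => ?_⟩
  · have h3 : val (crv w D v (fun x : Un w D => a ^ ((x.2 : ℕ) + 1) * c x)) t =
        val (crv w D v c) (a * t) := funext fun i => crv_scale v c a t i
    rw [h3]
    exact h1 _ P hP
  · obtain ⟨b, hb⟩ := h (a⁻¹ * t)
    refine ⟨b, fun i => ?_⟩
    rw [← hb i, crv_scale, mul_inv_cancel_left₀ ha]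

theorem fam_of_min [IsAlgClosed k] {M : ℕ} (hw : ∀ i, 0 < w i) (hD : 0 < D) (hM0 : 0 < M)
    {S : Set (MvPolynomial (Fin (n + 1)) k)} (hS : ∀ P ∈ S, ∃ m, P.IsWeightedHomogeneous w m)
    {v : Fin (n + 1) → k} (hv0 : v ≠ 0) (hvS : ∀ P ∈ S, MvPolynomial.eval v P = 0)
    (hG : Gp k w S) (hM : Mn k w S D v)
    (hdim : (M : WithBot ℕ∞) ≤
      ringKrullDim (MvPolynomial (Un w D) k ⧸ MvPolynomial.vanishingIdeal k (Cn w D S v))) :
    IsFam w S D v M (MvPolynomial.vanishingIdeal k (Cn w D S v)) ∧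
      ∀ c₀ : Un w D → k,
        (∀ q ∈ MvPolynomial.vanishingIdeal k (Cn w D S v), MvPolynomial.eval c₀ q = 0) →
        ¬ Triv w D v c₀ → OpnAt w S D v (MvPolynomial.vanishingIdeal k (Cn w D S v)) c₀ ∧
        ∀ x : Fin 2 → k, x ≠ 0 → ∃ i, hv w D (crv w D v c₀) x i ≠ 0 := by
  classical
  have hinf : Infinite k := IsAlgClosed.instInfinite
  have hne : (Cn w D S v).Nonempty := by
    by_contra hcon
    rw [Set.not_nonempty_iff_eq_empty] at hcon
    have h1 : MvPolynomial.vanishingIdeal k (Cn w D S v) = ⊤ := by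
      rw [hcon, Ideal.eq_top_iff_one]
      intro x hx
      exact absurd hx (Set.notMem_empty x)
    rw [h1] at hdim
    have h2 : Subsingleton (MvPolynomial (Un w D) k ⧸ (⊤ : Ideal (MvPolynomial (Un w D) k))) :=
      Ideal.Quotient.subsingleton_iff.2 rfl
    rw [ringKrullDim_eq_bot_of_subsingleton] at hdim
    exact absurd hdim (by
      rw [not_le]
      exact WithBot.bot_lt_coe _)
  have hval : ∀ c : Un w D → k,
      (∀ q ∈ MvPolynomial.vanishingIdeal k (Cn w D S v), MvPolynomial.eval c q = 0) →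
      ∀ t, ∀ P ∈ S, MvPolynomial.eval (val (crv w D v c) t) P = 0 := by
    intro c hc t P hP
    rw [← eval_aeval_gp]
    refine hc _ fun c' hc' => ?_
    rw [MvPolynomial.aeval_eq_eval, eval_aeval_gp]
    exact hc'.1 t P hP
  have hconst : ∀ c : Un w D → k,
      (∀ q ∈ MvPolynomial.vanishingIdeal k (Cn w D S v), MvPolynomial.eval c q = 0) →
      (∀ t, ∃ a : k, ∀ i, (crv w D v c i).eval t = a ^ w i * v i) → Triv w D v c :=
    fun c hc h => const_triv hw hD hS hv0 hM hG c hc h
  obtain ⟨hz, hdm⟩ := cone_dim (Cn w D S v) hne (fun c hc a ha => cn_scale c hc a ha) hdim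
  refine ⟨⟨hz, hval, hconst, hdm⟩, fun c₀ hc₀ hnt => ?_⟩
  have hnc : ¬ ∀ t, ∃ a : k, ∀ i, (crv w D v c₀ i).eval t = a ^ w i * v i :=
    fun h => hnt (hconst c₀ hc₀ h)
  have hgv : Gc w v := hG v hv0 fun P hP => by
    rw [MvPolynomial.aeval_eq_eval]
    exact hvS P hP
  -- a binomial which detects nonconstancy
  obtain ⟨t₀, i₀, j₀, hb⟩ : ∃ t i j, (crv w D v c₀ i).eval t ^ w j * v j ^ w i ≠
      (crv w D v c₀ j).eval t ^ w i * v i ^ w j := by
    by_contra hcon
    push Not at hcon
    exact hnc fun t => orbit hw hv0 hgv (hcon t)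
  constructor
  · refine ⟨gp w D v t₀ i₀ ^ w j₀ * MvPolynomial.C (v j₀ ^ w i₀) -
      gp w D v t₀ j₀ ^ w i₀ * MvPolynomial.C (v i₀ ^ w j₀), ?_, fun c' hc' hne' => ?_⟩
    · simp only [map_sub, map_mul, map_pow, MvPolynomial.eval_C, eval_gp]
      exact sub_ne_zero.2 hb
    · intro q hq
      have h1 : c' ∈ Cn w D S v := by
        refine ⟨hc', fun h => hne' ?_⟩
        obtain ⟨a, ha⟩ := h t₀
        simp only [map_sub, map_mul, map_pow, MvPolynomial.eval_C, eval_gp]
        rw [ha, ha, sub_eq_zero, mul_pow, mul_pow, ← pow_mul, ← pow_mul, mul_comm (w j₀) (w i₀)]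
        ring
      have h2 := hq c' h1
      rwa [MvPolynomial.aeval_eq_eval] at h2
  · have hd := natDegree_crv v c₀
    have h0 : ∀ i, (crv w D v c₀ i).coeff 0 = bc k v i := by
      intro i
      have h1 := congrFun (val_crv_zero v c₀) i
      rw [Polynomial.coeff_zero_eq_eval_zero]
      exact h1
    have hp : ∀ P ∈ S, MvPolynomial.aeval (crv w D v c₀) P = 0 := by
      intro P hP
      apply Polynomial.funext
      intro t
      rw [← eval_val, hval c₀ hc₀ t P hP, Polynomial.eval_zero]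
    have hn : ¬ Bi w (bc k v) (crv w D v c₀) := by
      intro h
      apply hb
      have h1 := congrArg (Polynomial.eval t₀) (h i₀ j₀)
      rw [Polynomial.eval_mul, Polynomial.eval_mul, Polynomial.eval_pow, Polynomial.eval_pow,
        Polynomial.eval_C, Polynomial.eval_C] at h1
      exact h1
    intro x hx
    by_cases hx0 : x 0 = 0
    · obtain ⟨i, hi⟩ := no_base_inf hw hS hv0 hM hG hd h0 hp hn
      have hx1 : x 1 ≠ 0 := by
        intro h
        apply hx
        funext j
        fin_cases j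
        · exact hx0
        · exact h
      refine ⟨i, ?_⟩
      unfold hv
      rw [Finset.sum_eq_single (w i * D)]
      · rw [Nat.sub_self, pow_zero, mul_one]
        exact mul_ne_zero hi (pow_ne_zero _ hx1)
      · intro j hj hne'
        rw [Finset.mem_range] at hj
        rw [hx0, zero_pow (by omega), mul_zero, zero_mul]
      · intro h
        exact absurd (Finset.mem_range.2 (Nat.lt_succ_self _)) h
    · obtain ⟨i, hi⟩ := no_base hw hS hv0 hM hG hd h0 hp hn (x 1 / x 0)
      refine ⟨i, ?_⟩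
      have h1 : hv w D (crv w D v c₀) x i =
          x 0 ^ (w i * D) * (crv w D v c₀ i).eval (x 1 / x 0) := by
        unfold hv
        rw [Polynomial.eval_eq_sum_range' (Nat.lt_succ_of_le (hd i)), Finset.mul_sum]
        refine Finset.sum_congr rfl fun j hj => ?_
        rw [Finset.mem_range] at hj
        obtain ⟨m, hm⟩ := Nat.exists_eq_add_of_le (Nat.lt_succ_iff.1 hj)
        rw [hm, Nat.add_sub_cancel_left, div_pow, pow_add]
        field_simp
      rw [h1]
      exact mul_ne_zero (pow_ne_zero _ hx0) hi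

end Pool.Agent.Lib.MP_1e3e9c_agM
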