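import Mathlib
import Pool.Agent.Lib.MP_1e3e9c_agM.M10
import Pool.Agent.Lib.MP_1e3e9c_agR.Z2
import Pool.Agent.Lib.MP_1e3e9c_agR.Z3

/-!
# MP_1e3e9c_ag, project M: rational curves from curves of least degree
-/

set_option autoImplicit false

namespace Pool.Agent.Lib.MP_1e3e9c_agM

open Pool.Agent.Lib.MP_1e3e9c_agR

/-- `D` is the least degree of the nonconstant curves through `v`, and those of degree `D` form a set of dimension `≥ M`. -/
def Lst {k : Type} [Field k] {n : ℕ} (w : Fin (n + 1) → ℕ)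
    (S : Set (MvPolynomial (Fin (n + 1)) k)) (D M : ℕ) (v : Fin (n + 1) → k) : Prop :=
  (∀ D' < D, ∀ p : Fin (n + 1) → Polynomial k, (∀ i, (p i).natDegree ≤ w i * D') →
    val p 0 = v → (∀ t, ∀ P ∈ S, MvPolynomial.eval (val p t) P = 0) →
    ∀ t, ∃ a : k, ∀ i, (p i).eval t = a ^ w i * v i) ∧
  (M : WithBot ℕ∞) ≤
    ringKrullDim (MvPolynomial (Un w D) k ⧸ MvPolynomial.vanishingIdeal k (Cn w D S v))

theorem mn_of_lst {k : Type} [Field k] [IsAlgClosed k] {n D M : ℕ} {w : Fin (n + 1) → ℕ}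
    {S : Set (MvPolynomial (Fin (n + 1)) k)} {v : Fin (n + 1) → k} (h : Lst w S D M v) :
    Mn k w S D v := by
  have hinf : Infinite k := IsAlgClosed.instInfinite
  intro D' hD' p hp h0 hP
  refine bi_of_const (h.1 D' hD' p hp ?_ fun t P hPS => ?_)
  · funext i
    have h1 := h0 i
    rw [Polynomial.coeff_zero_eq_eval_zero] at h1
    exact h1
  · rw [eval_val, hP P hPS, Polynomial.eval_zero]

theorem lst_fam {k : Type} [Field k] [IsAlgClosed k] {n D M c : ℕ} {w : Fin (n + 1) → ℕ}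
    (hw : ∀ i, 0 < w i) (hD : 0 < D) (hM0 : 0 < M)
    {S : Set (MvPolynomial (Fin (n + 1)) k)} (hS : ∀ P ∈ S, ∃ m, P.IsWeightedHomogeneous w m)
    (hV : ∀ x : Fin (n + 1) → k, x ≠ 0 → (∀ P ∈ S, MvPolynomial.eval x P = 0) →
      LCI S c x ∧ Gc w x)
    {v : Fin (n + 1) → k} (hv0 : v ≠ 0) (hvS : ∀ P ∈ S, MvPolynomial.eval v P = 0)
    (h : Lst w S D M v) :
    ∃ A : Ideal (MvPolynomial (Un w D) k), IsFam w S D v M A ∧
      ∀ c₀ : Un w D → k, (∀ q ∈ A, MvPolynomial.eval c₀ q = 0) → ¬ Triv w D v c₀ →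
        OpnAt w S D v A c₀ ∧
        ∀ x : Fin 2 → k, x ≠ 0 → (∃ i, hv w D (crv w D v c₀) x i ≠ 0) ∧
          LCI S c (hv w D (crv w D v c₀) x) := by
  have hinf : Infinite k := IsAlgClosed.instInfinite
  have hG : Gp k w S := fun x hx hP => (hV x hx fun P hPS => by
    have h1 := hP P hPS
    rwa [MvPolynomial.aeval_eq_eval] at h1).2
  obtain ⟨hF, hA⟩ := fam_of_min hw hD hM0 hS hv0 hvS hG (mn_of_lst h) h.2
  refine ⟨_, hF, fun c₀ hc₀ hnt => ?_⟩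
  obtain ⟨h1, h2⟩ := hA c₀ hc₀ hnt
  refine ⟨h1, fun x hx => ⟨h2 x hx, (hV _ (Function.ne_iff.2 (h2 x hx)) fun P hP => ?_).1⟩⟩
  obtain ⟨m, hm⟩ := hS P hP
  have h3 : MvPolynomial.aeval (crv w D v c₀) P = 0 := by
    apply Polynomial.funext
    intro t
    rw [← eval_val, hF.base c₀ hc₀ t P hP, Polynomial.eval_zero]
  rw [hv_eval (natDegree_crv v c₀) hm, h3]
  unfold Pool.Agent.Lib.MP_1e3e9c_agU.ev
  simp

theorem least_rational_curve {k : Type} [Field k] [IsAlgClosed k] [CharZero k] {n D g N c : ℕ}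
    {w : Fin (n + 1) → ℕ} (hw : ∀ i, 0 < w i) (hD : 0 < D) (hg : 0 < g) (hN : 4 ≤ N)
    (hc : c + N = n)
    {S : Set (MvPolynomial (Fin (n + 1)) k)} (hS : ∀ P ∈ S, ∃ m, P.IsWeightedHomogeneous w m)
    {G : MvPolynomial (Fin (n + 1)) k} (hG : G.IsWeightedHomogeneous w g)
    (hV : ∀ x : Fin (n + 1) → k, x ≠ 0 → (∀ P ∈ S, MvPolynomial.eval x P = 0) →
      LCI S c x ∧ Gc w x)
    (T : Set (Fin (n + 1) → k))
    (hT : ∀ v ∈ T, v ≠ 0 ∧ (∀ P ∈ S, MvPolynomial.eval v P = 0) ∧ MvPolynomial.eval v G = 0 ∧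
      Smo S G c v ∧ Lst w S D (max (g * D) 2) v)
    (hTd : (N : WithBot ℕ∞) ≤ wdm w T) : HasRat w (insert G S) := by
  refine smooth_rational_curve hw hD hg hN hc hS hG T
    (fun v hv => ⟨(hT v hv).1, (hT v hv).2.2.1, (hT v hv).2.2.2.1⟩) hTd fun v hv => ?_
  obtain ⟨hv0, hvS, -, -, hl⟩ := hT v hv
  obtain ⟨A, hF, hA⟩ := lst_fam hw hD (lt_of_lt_of_le Nat.two_pos (le_max_right _ _)) hS hV hv0 hvS hl
  exact ⟨A, hF, fun c₀ h1 h2 _ => hA c₀ h1 h2⟩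

theorem least_cover_curve {k : Type} [Field k] [IsAlgClosed k] [CharZero k] {n D r a N c : ℕ}
    {w : Fin (n + 1) → ℕ} (hw : ∀ i, 0 < w i) (ha : 0 < a) (hr : 2 ≤ (r - 1) * (a * D))
    (hN : 4 ≤ N) (hc : c + N = n + 1)
    {S : Set (MvPolynomial (Fin (n + 1)) k)} (hS : ∀ P ∈ S, ∃ m, P.IsWeightedHomogeneous w m)
    {E : MvPolynomial (Fin (n + 1 + 1)) k} (hE : E.IsWeightedHomogeneous (cw a w) (r * a))
    (hV : ∀ x : Fin (n + 1) → k, x ≠ 0 → (∀ P ∈ S, MvPolynomial.eval x P = 0) →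
      LCI S c x ∧ Gc w x)
    (T : Set (Fin (n + 1 + 1) → k))
    (hT : ∀ u ∈ T, MvPolynomial.eval u E = 0 ∧ MvPolynomial.eval u (MvPolynomial.pderiv 0 E) ≠ 0 ∧
      (fun i : Fin (n + 1) => u i.succ) ≠ 0 ∧
      (∀ P ∈ S, MvPolynomial.eval (fun i : Fin (n + 1) => u i.succ) P = 0) ∧
      Lst w S D ((r - 1) * (a * D)) fun i => u i.succ)
    (hTd : (N : WithBot ℕ∞) ≤ wdm (cw a w) T) : HasRat (cw a w) (insert E (coneS S)) := by
  have hD : 0 < D := by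
    rcases Nat.eq_zero_or_pos D with rfl | h
    · simp at hr
    · exact h
  refine smooth_cover_rational hw ha hr hN hc hS hE T (fun u hu => ?_) hTd fun u hu => ?_
  · obtain ⟨h1, h2, h3, h4, -⟩ := hT u hu
    obtain ⟨P, hP, hli, -⟩ := (hV _ h3 h4).1
    exact ⟨h1, h2, h3, P, hP, hli⟩
  · obtain ⟨h1, h2, h3, h4, hl⟩ := hT u hu
    exact lst_fam hw hD (by omega) hS hV h3 h4 hl

end Pool.Agent.Lib.MP_1e3e9c_agM
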